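import Pool.Agent.W888.UG.KV

set_option autoImplicit false
set_option linter.unusedSectionVars false

/-!
Covers of the cube by convex sets: one of the sets contains a point whose marginals are close to
those of a given product distribution.
-/

namespace Pool.Agent.W888.SX

open Finset Matrix
open Pool.Agent.W888.UG (lab lab_apply prod_marg term_ge)

section

variable {A : Type} [Fintype A]

/-- the divergence of two distributions -/
noncomputable def kl (μ p : A → ℝ) : ℝ := ∑ a, μ a * (Real.log (μ a) - Real.log (p a))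

theorem kl_ge (μ p : A → ℝ) (hμ : ∀ a, 0 ≤ μ a) (hp : ∀ a, 0 ≤ p a) (hμ1 : ∑ a, μ a = 1)
    (hp1 : ∑ a, p a = 1) (habs : ∀ a, p a = 0 → μ a = 0) :
    ∑ a, (Real.sqrt (μ a) - Real.sqrt (p a)) ^ 2 ≤ kl μ p := by
  have h2 : ∀ a, (Real.sqrt (μ a) - Real.sqrt (p a)) ^ 2 =
      (2 * μ a - 2 * Real.sqrt (μ a * p a)) + (p a - μ a) := by
    intro a
    rw [sub_sq, Real.sq_sqrt (hμ a), Real.sq_sqrt (hp a), Real.sqrt_mul (hμ a)]
    ring
  simp only [h2]
  rw [Finset.sum_add_distrib, Finset.sum_sub_distrib (f := fun a => p a), hμ1, hp1, sub_self,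
    add_zero]
  refine Finset.sum_le_sum fun a _ => ?_
  rcases (hp a).eq_or_lt with h | h
  · rw [habs a h.symm]
    simp
  · exact term_ge (hμ a) h

theorem kl_nonneg (μ p : A → ℝ) (hμ : ∀ a, 0 ≤ μ a) (hp : ∀ a, 0 ≤ p a) (hμ1 : ∑ a, μ a = 1)
    (hp1 : ∑ a, p a = 1) (habs : ∀ a, p a = 0 → μ a = 0) : 0 ≤ kl μ p :=
  (Finset.sum_nonneg fun _ _ => sq_nonneg _).trans (kl_ge μ p hμ hp hμ1 hp1 habs)

/-- small divergence: all values are close -/
theorem near_of_kl (μ p : A → ℝ) (hμ : ∀ a, 0 ≤ μ a) (hp : ∀ a, 0 ≤ p a) (hμ1 : ∑ a, μ a = 1)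
    (hp1 : ∑ a, p a = 1) (habs : ∀ a, p a = 0 → μ a = 0) (m τ : ℝ)
    (hτ : 0 ≤ τ) (hτ1 : τ ≤ 1) (hd : kl μ p ≤ τ ^ 2 * m / 4) (a : A) (hma : m ≤ p a) :
    (1 - τ) * p a ≤ μ a ∧ μ a ≤ (1 + 2 * τ) * p a := by
  have hpa := hp a
  have h1 : (Real.sqrt (μ a) - Real.sqrt (p a)) ^ 2 ≤ τ ^ 2 * m / 4 :=
    (Finset.single_le_sum (f := fun a => (Real.sqrt (μ a) - Real.sqrt (p a)) ^ 2)
      (fun _ _ => sq_nonneg _) (Finset.mem_univ a)).trans ((kl_ge μ p hμ hp hμ1 hp1 habs).trans hd)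
  have hs0 : 0 ≤ Real.sqrt (p a) := Real.sqrt_nonneg _
  have h2 : τ ^ 2 * m / 4 ≤ (τ / 2 * Real.sqrt (p a)) ^ 2 := by
    rw [mul_pow, Real.sq_sqrt hpa]
    have : τ ^ 2 * m ≤ τ ^ 2 * p a := mul_le_mul_of_nonneg_left hma (sq_nonneg τ)
    linarith
  have h3 : |Real.sqrt (μ a) - Real.sqrt (p a)| ≤ τ / 2 * Real.sqrt (p a) :=
    abs_le_of_sq_le_sq (h1.trans h2) (by positivity)
  have h4 := abs_le.1 h3
  have h5 : (1 - τ / 2) * Real.sqrt (p a) ≤ Real.sqrt (μ a) := by linarith [h4.1]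
  have h5' : Real.sqrt (μ a) ≤ (1 + τ / 2) * Real.sqrt (p a) := by linarith [h4.2]
  constructor
  · have h7 : 0 ≤ (1 - τ / 2) * Real.sqrt (p a) := mul_nonneg (by linarith) hs0
    have h6 : ((1 - τ / 2) * Real.sqrt (p a)) ^ 2 ≤ μ a := by
      calc ((1 - τ / 2) * Real.sqrt (p a)) ^ 2 ≤ Real.sqrt (μ a) ^ 2 := pow_le_pow_left₀ h7 h5 2
        _ = μ a := Real.sq_sqrt (hμ a)
    rw [mul_pow, Real.sq_sqrt hpa] at h6
    refine le_trans ?_ h6
    apply mul_le_mul_of_nonneg_right _ hpa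
    nlinarith [sq_nonneg τ]
  · have h6 : μ a ≤ ((1 + τ / 2) * Real.sqrt (p a)) ^ 2 := by
      calc μ a = Real.sqrt (μ a) ^ 2 := (Real.sq_sqrt (hμ a)).symm
        _ ≤ _ := pow_le_pow_left₀ (Real.sqrt_nonneg _) h5' 2
    rw [mul_pow, Real.sq_sqrt hpa] at h6
    refine h6.trans ?_
    apply mul_le_mul_of_nonneg_right _ hpa
    nlinarith [sq_nonneg τ]

end

section

variable {W A : Type} [Fintype W] [Fintype A] [DecidableEq A] [DecidableEq W]

/-- the marginals of a weight function -/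
noncomputable def mg (ν : (W → A) → ℝ) : W → A → ℝ := fun w a => ∑ l, ν l * (if l w = a then 1 else 0)

theorem mg_nonneg {ν : (W → A) → ℝ} (h : ∀ l, 0 ≤ ν l) (w : W) (a : A) : 0 ≤ mg ν w a := by
  unfold mg
  refine Finset.sum_nonneg fun l _ => mul_nonneg (h l) ?_
  split_ifs <;> norm_num

theorem mg_sum {ν : (W → A) → ℝ} (h1 : ∑ l, ν l = 1) (w : W) : ∑ a, mg ν w a = 1 := by
  unfold mg
  rw [Finset.sum_comm]
  refine Eq.trans (Finset.sum_congr rfl fun l _ => ?_) h1
  rw [← Finset.mul_sum]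
  simp

theorem mg_ge {ν : (W → A) → ℝ} (h : ∀ l, 0 ≤ ν l) (l : W → A) (w : W) : ν l ≤ mg ν w (l w) := by
  unfold mg
  have h1 := Finset.single_le_sum (f := fun l' : W → A => ν l' * (if l' w = l w then 1 else 0))
    (fun l' _ => mul_nonneg (h l') (by split_ifs <;> norm_num)) (Finset.mem_univ l)
  beta_reduce at h1
  rwa [if_pos rfl, mul_one] at h1

theorem mg_mem {C : Set (W → A → ℝ)} (hC : Convex ℝ C) {ν : (W → A) → ℝ} (h : ∀ l, 0 ≤ ν l)
    (h1 : ∑ l, ν l = 1) (hsupp : ∀ l, ν l ≠ 0 → lab l ∈ C) : mg ν ∈ C := by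
  classical
  have h2 : mg ν = ∑ l ∈ univ.filter fun l => ν l ≠ 0, ν l • lab l := by
    funext w a
    rw [Finset.sum_apply, Finset.sum_apply]
    simp only [Pi.smul_apply, smul_eq_mul, lab_apply]
    rw [Finset.sum_filter]
    unfold mg
    refine Finset.sum_congr rfl fun l _ => ?_
    by_cases hl : ν l ≠ 0
    · rw [if_pos hl]
    · rw [if_neg hl, not_not.1 hl, zero_mul]
  rw [h2]
  refine hC.sum_mem (fun l _ => h l) ?_ fun l hl => hsupp l (mem_filter.1 hl).2
  rw [← h1, Finset.sum_filter]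
  refine Finset.sum_congr rfl fun l _ => ?_
  by_cases hl : ν l ≠ 0
  · rw [if_pos hl]
  · rw [if_neg hl, not_not.1 hl]

/-- superadditivity of the divergence from a product distribution -/
theorem kl_sum (p : W → A → ℝ) (ν : (W → A) → ℝ) (h : ∀ l, 0 ≤ ν l) (h1 : ∑ l, ν l = 1)
    (Z : ℝ) (hZ : 0 < Z) (hν : ∀ l, ν l ≠ 0 → ν l = (∏ w, p w (l w)) / Z) (hp : ∀ w a, 0 ≤ p w a) :
    ∑ w, kl (mg ν w) (p w) ≤ -Real.log Z := by
  have hmpos : ∀ l, ν l ≠ 0 → ∀ w, 0 < mg ν w (l w) := fun l hl w =>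
    lt_of_lt_of_le ((h l).lt_of_ne (Ne.symm hl)) (mg_ge h l w)
  have hppos : ∀ l, ν l ≠ 0 → ∀ w, 0 < p w (l w) := by
    intro l hl w
    refine (hp w (l w)).lt_of_ne fun h0 => hl ?_
    rw [hν l hl, Finset.prod_eq_zero (Finset.mem_univ w) h0.symm, zero_div]
  have h2 : ∑ l, ν l * (∑ w, (Real.log (mg ν w (l w)) - Real.log (p w (l w))) + Real.log Z) ≤
      0 := by
    have h3 : ∀ l, ν l * (∑ w, (Real.log (mg ν w (l w)) - Real.log (p w (l w))) + Real.log Z) ≤
        (∏ w, mg ν w (l w)) - ν l := by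
      intro l
      by_cases hl : ν l = 0
      · rw [hl, zero_mul, sub_zero]
        exact Finset.prod_nonneg fun w _ => mg_nonneg h w _
      · have hl0 : 0 < ν l := (h l).lt_of_ne (Ne.symm hl)
        have hm : 0 < ∏ w, mg ν w (l w) := Finset.prod_pos fun w _ => hmpos l hl w
        have hpp : 0 < ∏ w, p w (l w) := Finset.prod_pos fun w _ => hppos l hl w
        have h4 : ∑ w, (Real.log (mg ν w (l w)) - Real.log (p w (l w))) + Real.log Z =
            Real.log ((∏ w, mg ν w (l w)) / ν l) := by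
          rw [Real.log_div hm.ne' hl, hν l hl, Real.log_div hpp.ne' hZ.ne',
            Real.log_prod (fun w _ => (hmpos l hl w).ne'),
            Real.log_prod (fun w _ => (hppos l hl w).ne'), Finset.sum_sub_distrib]
          ring
        rw [h4]
        have h5 := Real.log_le_sub_one_of_pos (div_pos hm hl0)
        calc ν l * Real.log ((∏ w, mg ν w (l w)) / ν l) ≤
              ν l * ((∏ w, mg ν w (l w)) / ν l - 1) := mul_le_mul_of_nonneg_left h5 hl0.le
          _ = _ := by field_simp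
    refine (Finset.sum_le_sum fun l _ => h3 l).trans ?_
    rw [Finset.sum_sub_distrib, h1, prod_marg (mg ν) (mg_sum h1)]
    norm_num
  have h3 : ∑ l, ν l * (∑ w, (Real.log (mg ν w (l w)) - Real.log (p w (l w))) + Real.log Z) =
      ∑ w, kl (mg ν w) (p w) + Real.log Z := by
    simp only [mul_add]
    rw [Finset.sum_add_distrib, ← Finset.sum_mul, h1, one_mul]
    congr 1
    simp only [Finset.mul_sum]
    rw [Finset.sum_comm]
    refine Finset.sum_congr rfl fun w _ => ?_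
    unfold kl
    have h4 : ∀ l, ν l * (Real.log (mg ν w (l w)) - Real.log (p w (l w))) =
        ∑ a, (ν l * (if l w = a then 1 else 0)) * (Real.log (mg ν w a) - Real.log (p w a)) := by
      intro l
      rw [Finset.sum_eq_single (l w)]
      · rw [if_pos rfl, mul_one]
      · intro a _ ha
        rw [if_neg (Ne.symm ha), mul_zero, zero_mul]
      · intro hcon
        exact absurd (Finset.mem_univ _) hcon
    rw [Finset.sum_congr rfl fun l _ => h4 l, Finset.sum_comm]
    refine Finset.sum_congr rfl fun a _ => ?_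
    rw [← Finset.sum_mul]
    rfl
  linarith

/-- In a cover of the cube by `K` convex sets, one set contains a point with marginals close to
those of the product distribution `p` at all vertices outside a set of at most
`(log K) 4 / (τ ^ 2 m)` vertices. -/
theorem exists_near (p : W → A → ℝ) (hp : ∀ w a, 0 ≤ p w a) (hp1 : ∀ w, ∑ a, p w a = 1)
    (F : List (Set (W → A → ℝ))) (hconv : ∀ C ∈ F, Convex ℝ C)
    (hcov : ∀ l : W → A, ∃ C ∈ F, lab l ∈ C) (τ m : ℝ) (hτ : 0 < τ) (hτ1 : τ ≤ 1) (hm : 0 < m)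
    (hpm : ∀ w a, m ≤ p w a) :
    ∃ C ∈ F, ∃ μ ∈ C, ∃ Bd : Finset W,
      (Bd.card : ℝ) * (τ ^ 2 * m / 4) ≤ Real.log F.length ∧
      (∀ w a, 0 ≤ μ w a) ∧ (∀ w, ∑ a, μ w a = 1) ∧
      ∀ w ∉ Bd, ∀ a, (1 - τ) * p w a ≤ μ w a ∧ μ w a ≤ (1 + 2 * τ) * p w a := by
  classical
  have hP0 : ∀ l : W → A, 0 ≤ ∏ w, p w (l w) := fun l => Finset.prod_nonneg fun w _ => hp w _
  have hP1 : ∑ l : W → A, ∏ w, p w (l w) = 1 := prod_marg p hp1
  obtain ⟨C, hC, hbig⟩ : ∃ C ∈ F, (1 : ℝ) ≤ F.length *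
      ∑ l ∈ univ.filter fun l : W → A => lab l ∈ C, ∏ w, p w (l w) := by
    by_contra hcon
    push Not at hcon
    have h1 : (1 : ℝ) ≤ ∑ i : Fin F.length,
        ∑ l ∈ univ.filter fun l : W → A => lab l ∈ F.get i, ∏ w, p w (l w) := by
      have h2 : ∀ i : Fin F.length,
          ∑ l ∈ univ.filter (fun l : W → A => lab l ∈ F.get i), ∏ w, p w (l w) =
          ∑ l : W → A, if lab l ∈ F.get i then ∏ w, p w (l w) else 0 := fun i =>
        Finset.sum_filter _ _
      simp only [h2]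
      rw [Finset.sum_comm, ← hP1]
      refine Finset.sum_le_sum fun l _ => ?_
      obtain ⟨C, hC, hl⟩ := hcov l
      obtain ⟨i, hi⟩ := List.get_of_mem hC
      have h3 := Finset.single_le_sum (f := fun i : Fin F.length =>
        if lab l ∈ F.get i then ∏ w, p w (l w) else 0) (fun i _ => by
          beta_reduce
          split_ifs
          · exact hP0 l
          · exact le_rfl) (Finset.mem_univ i)
      beta_reduce at h3
      rwa [hi, if_pos hl] at h3
    have hlen : 0 < F.length := by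
      rcases Nat.eq_zero_or_pos F.length with h0 | h0
      · have h2 : ∃ l : W → A, True := by
          by_contra h3
          push Not at h3
          have : IsEmpty (W → A) := ⟨fun l => h3 l⟩
          rw [Finset.univ_eq_empty, Finset.sum_empty] at hP1
          exact zero_ne_one hP1
        obtain ⟨l, -⟩ := h2
        obtain ⟨C, hC, -⟩ := hcov l
        rw [List.length_eq_zero_iff] at h0
        rw [h0] at hC
        simp at hC
      · exact h0
    have h3 : (F.length : ℝ) * ∑ i : Fin F.length,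
        (∑ l ∈ univ.filter fun l : W → A => lab l ∈ F.get i, ∏ w, p w (l w)) <
          ∑ _i : Fin F.length, (1 : ℝ) := by
      rw [Finset.mul_sum]
      apply Finset.sum_lt_sum_of_nonempty
      · exact ⟨⟨0, hlen⟩, Finset.mem_univ _⟩
      · intro i _
        exact hcon _ (List.get_mem _ _)
    rw [Finset.sum_const, Finset.card_univ, Fintype.card_fin, nsmul_eq_mul, mul_one] at h3
    have h4 : (F.length : ℝ) * 1 ≤ (F.length : ℝ) * ∑ i : Fin F.length,
        ∑ l ∈ univ.filter fun l : W → A => lab l ∈ F.get i, ∏ w, p w (l w) :=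
      mul_le_mul_of_nonneg_left h1 (Nat.cast_nonneg _)
    linarith
  obtain ⟨Z, hZ⟩ : ∃ Z : ℝ, Z = ∑ l ∈ univ.filter fun l : W → A => lab l ∈ C,
    ∏ w, p w (l w) := ⟨_, rfl⟩
  rw [← hZ] at hbig
  have hZ0' : 0 ≤ Z := by
    rw [hZ]
    exact Finset.sum_nonneg fun l _ => hP0 l
  have hFpos : (0 : ℝ) < F.length := by
    by_contra hcon
    have : (F.length : ℝ) = 0 := le_antisymm (not_lt.1 hcon) (Nat.cast_nonneg _)
    rw [this, zero_mul] at hbig
    linarith
  have hZ0 : 0 < Z := by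
    rcases hZ0'.eq_or_lt with h | h
    · rw [← h, mul_zero] at hbig
      linarith
    · exact h
  have hlog : -Real.log Z ≤ Real.log F.length := by
    have h1 := Real.log_le_log one_pos hbig
    rw [Real.log_one, Real.log_mul hFpos.ne' hZ0.ne'] at h1
    linarith
  obtain ⟨ν, hν⟩ : ∃ ν : (W → A) → ℝ, ν = fun l => if lab l ∈ C then (∏ w, p w (l w)) / Z else 0 :=
    ⟨_, rfl⟩
  have hν0 : ∀ l, 0 ≤ ν l := by
    intro l
    rw [hν]
    beta_reduce
    split_ifs
    · exact div_nonneg (hP0 l) hZ0.le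
    · exact le_rfl
  have hν1 : ∑ l, ν l = 1 := by
    rw [hν]
    beta_reduce
    rw [← Finset.sum_filter, ← Finset.sum_div, ← hZ, div_self hZ0.ne']
  have hνs : ∀ l, ν l ≠ 0 → ν l = (∏ w, p w (l w)) / Z := by
    intro l hl
    rw [hν] at hl ⊢
    beta_reduce at hl ⊢
    by_cases h : lab l ∈ C
    · rw [if_pos h]
    · rw [if_neg h] at hl
      exact absurd rfl hl
  have hνC : ∀ l, ν l ≠ 0 → lab l ∈ C := by
    intro l hl
    rw [hν] at hl
    beta_reduce at hl
    by_contra h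
    rw [if_neg h] at hl
    exact hl rfl
  have habs : ∀ w a, p w a = 0 → mg ν w a = 0 := fun w a h => by
    have := hpm w a
    rw [h] at this
    linarith
  have hkl := (kl_sum p ν hν0 hν1 Z hZ0 hνs hp).trans hlog
  obtain ⟨κ, hκ⟩ : ∃ κ : ℝ, κ = τ ^ 2 * m / 4 := ⟨_, rfl⟩
  refine ⟨C, hC, mg ν, mg_mem (hconv C hC) hν0 hν1 hνC,
    Finset.univ.filter fun w => κ < kl (mg ν w) (p w), ?_, mg_nonneg hν0, mg_sum hν1, ?_⟩
  · rw [← hκ]
    calc ((Finset.univ.filter fun w => κ < kl (mg ν w) (p w)).card : ℝ) * κ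
        = ∑ w ∈ Finset.univ.filter fun w => κ < kl (mg ν w) (p w), κ := by
          rw [Finset.sum_const, nsmul_eq_mul]
      _ ≤ ∑ w ∈ Finset.univ.filter fun w => κ < kl (mg ν w) (p w), kl (mg ν w) (p w) :=
          Finset.sum_le_sum fun w hw => (Finset.mem_filter.1 hw).2.le
      _ ≤ ∑ w, kl (mg ν w) (p w) := Finset.sum_le_sum_of_subset_of_nonneg (Finset.subset_univ _)
          fun w _ _ => kl_nonneg _ _ (mg_nonneg hν0 w) (hp w) (mg_sum hν1 w) (hp1 w) (habs w)
      _ ≤ _ := hkl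
  · intro w hw a
    rw [Finset.mem_filter, not_and, not_lt] at hw
    exact near_of_kl _ _ (mg_nonneg hν0 w) (hp w) (mg_sum hν1 w) (hp1 w) (habs w) m τ hτ.le
      hτ1 (by rw [← hκ]; exact hw (Finset.mem_univ _)) a (hpm w a)

end

end Pool.Agent.W888.SX
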