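import Pool.Agent.W888.SX.Rel

set_option autoImplicit false
set_option linter.unusedSectionVars false

/-!
The noisy cube: small sets expand, and the semidefinite relaxation has solutions of small expansion.
-/

namespace Pool.Agent.W888.SX

open Finset Matrix
open Pool.Agent.W888.UG (lab lab_apply Tree full full_proves tri_all cube_tri vec SplitProof
  cover_of_tree tree_of_split)
open Pool.Agent.H562R2 (sg walsh fc sum_prod_cube walsh_orth stab_small sg_mul_self)

/-- The weight of the edge between `x` and `y` in the noisy cube: the probability that `y` is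
obtained from `x` if each bit is flipped independently with probability `ε`. -/
noncomputable def cubeWt {R : ℕ} (ε : ℝ) (x y : Fin R → Bool) : ℝ :=
  ∏ i, if x i = y i then 1 - ε else ε

/-- the expansion of a set of vertices -/
noncomputable def expansion {V : Type} [Fintype V] [DecidableEq V] (wt : V → V → ℝ)
    (S : Finset V) : ℝ :=
  (∑ x ∈ S, ∑ y ∈ Sᶜ, wt x y) / S.card

section

variable {R : ℕ}

theorem cubeWt_nonneg {ε : ℝ} (h0 : 0 ≤ ε) (h1 : ε ≤ 1) (x y : Fin R → Bool) :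
    0 ≤ cubeWt ε x y := by
  unfold cubeWt
  refine Finset.prod_nonneg fun i _ => ?_
  split_ifs
  · linarith
  · exact h0

theorem cubeWt_comm (ε : ℝ) (x y : Fin R → Bool) : cubeWt ε x y = cubeWt ε y x := by
  unfold cubeWt
  refine Finset.prod_congr rfl fun i _ => ?_
  simp only [eq_comm]

theorem cubeWt_sum (ε : ℝ) (x : Fin R → Bool) : ∑ y, cubeWt ε x y = 1 := by
  unfold cubeWt
  rw [sum_prod_cube (fun i b => if x i = b then 1 - ε else ε)]
  refine Finset.prod_eq_one fun i _ => ?_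
  cases x i <;> simp

theorem cubeWt_sum' (ε : ℝ) (y : Fin R → Bool) : ∑ x, cubeWt ε x y = 1 := by
  rw [← cubeWt_sum ε y]
  exact Finset.sum_congr rfl fun x _ => cubeWt_comm ε x y

theorem cubeWt_walsh (ε : ℝ) (x y : Fin R → Bool) :
    (2 : ℝ) ^ R * cubeWt ε x y = ∑ S : Finset (Fin R), (1 - 2 * ε) ^ S.card *
      (walsh S x * walsh S y) := by
  have h1 : ∀ S : Finset (Fin R), (1 - 2 * ε) ^ S.card * (walsh S x * walsh S y) =
      ∏ i ∈ S, ((1 - 2 * ε) * (sg (x i) * sg (y i))) := by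
    intro S
    rw [Finset.prod_mul_distrib, Finset.prod_const, Finset.prod_mul_distrib]
    rfl
  simp only [h1]
  have h2 : ∑ S : Finset (Fin R), ∏ i ∈ S, ((1 - 2 * ε) * (sg (x i) * sg (y i))) =
      ∏ i, (1 + (1 - 2 * ε) * (sg (x i) * sg (y i))) := by
    rw [Finset.prod_one_add]
    rw [Finset.powerset_univ]
  rw [h2]
  unfold cubeWt
  have h3 : (2 : ℝ) ^ R = ∏ _i : Fin R, (2 : ℝ) := by
    rw [Finset.prod_const, card_univ, Fintype.card_fin]
  rw [h3, ← Finset.prod_mul_distrib]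
  refine Finset.prod_congr rfl fun i _ => ?_
  cases x i <;> cases y i <;> simp <;> ring

/-- the quadratic form of the weights -/
theorem cubeWt_form (ε : ℝ) (f : (Fin R → Bool) → ℝ) :
    ∑ x, ∑ y, f x * cubeWt ε x y * f y =
      2 ^ R * ∑ S : Finset (Fin R), (1 - 2 * ε) ^ S.card * fc f S ^ 2 := by
  have h0 : (0 : ℝ) < 2 ^ R := by positivity
  have h1 : (2 : ℝ) ^ R * ∑ x, ∑ y, f x * cubeWt ε x y * f y =
      ∑ S : Finset (Fin R), (1 - 2 * ε) ^ S.card * (∑ x, f x * walsh S x) ^ 2 := by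
    have h2 : ∀ x y, (2 : ℝ) ^ R * (f x * cubeWt ε x y * f y) =
        ∑ S : Finset (Fin R), (1 - 2 * ε) ^ S.card * ((f x * walsh S x) * (f y * walsh S y)) := by
      intro x y
      calc (2 : ℝ) ^ R * (f x * cubeWt ε x y * f y) = (2 ^ R * cubeWt ε x y) * (f x * f y) := by
            ring
        _ = _ := by
            rw [cubeWt_walsh, Finset.sum_mul]
            exact Finset.sum_congr rfl fun S _ => by ring
    simp only [Finset.mul_sum, h2]
    rw [Finset.sum_congr rfl fun x _ => Finset.sum_comm, Finset.sum_comm]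
    refine Finset.sum_congr rfl fun S _ => ?_
    rw [sq, Finset.sum_mul_sum, Finset.mul_sum]
    refine Finset.sum_congr rfl fun x _ => ?_
    rw [Finset.mul_sum]
  have h2 : ∀ S : Finset (Fin R), ∑ x, f x * walsh S x = 2 ^ R * fc f S := by
    intro S
    unfold fc
    rw [Fintype.card_fin]
    field_simp
  simp only [h2] at h1
  have h3 : ∑ S : Finset (Fin R), (1 - 2 * ε) ^ S.card * (2 ^ R * fc f S) ^ 2 =
      2 ^ R * (2 ^ R * ∑ S : Finset (Fin R), (1 - 2 * ε) ^ S.card * fc f S ^ 2) := by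
    rw [Finset.mul_sum, Finset.mul_sum]
    exact Finset.sum_congr rfl fun S _ => by ring
  rw [h3] at h1
  exact mul_left_cancel₀ h0.ne' h1

/-- small sets keep little weight inside -/
theorem inside_le {ε : ℝ} (h0 : 0 ≤ ε) (h1 : 2 * ε ≤ 1) (S : Finset (Fin R → Bool)) (δ : ℝ)
    (hδ : 0 ≤ δ) (hS : (S.card : ℝ) ≤ δ * 2 ^ R) (j : ℕ) :
    ∑ x ∈ S, ∑ y ∈ S, cubeWt ε x y ≤ (3 ^ j * Real.sqrt δ + (1 - 2 * ε) ^ j) * S.card := by
  obtain ⟨f, hf⟩ : ∃ f : (Fin R → Bool) → ℝ, f = fun x => if x ∈ S then 1 else 0 := ⟨_, rfl⟩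
  have hf01 : ∀ x, f x = 0 ∨ f x = 1 := by
    intro x
    rw [hf]
    beta_reduce
    split_ifs <;> simp
  have hsum : ∑ x, f x = S.card := by
    rw [hf, Finset.sum_ite_mem, Finset.univ_inter, Finset.sum_const, nsmul_eq_mul, mul_one]
  have h2 : ∑ x ∈ S, ∑ y ∈ S, cubeWt ε x y = ∑ x, ∑ y, f x * cubeWt ε x y * f y := by
    have h3 : ∀ x, ∑ y, f x * cubeWt ε x y * f y = if x ∈ S then ∑ y ∈ S, cubeWt ε x y else 0 := by
      intro x
      rw [hf]
      beta_reduce
      by_cases hx : x ∈ S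
      · simp only [if_pos hx, one_mul, mul_ite, mul_one, mul_zero]
        rw [Finset.sum_ite_mem, Finset.univ_inter]
      · simp only [if_neg hx, zero_mul, Finset.sum_const_zero]
    simp only [h3]
    rw [Finset.sum_ite_mem, Finset.univ_inter]
  have h2R : (0 : ℝ) < 2 ^ R := by positivity
  obtain ⟨μ, hμ⟩ : ∃ μ : ℝ, μ = (S.card : ℝ) / 2 ^ R := ⟨_, rfl⟩
  have hμ0 : 0 ≤ μ := by rw [hμ]; positivity
  have hμδ : μ ≤ δ := by
    rw [hμ, div_le_iff₀ h2R]
    exact hS
  have h3 := stab_small f hf01 μ (Real.sqrt μ) (1 - 2 * ε) (by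
    rw [hsum, hμ, Fintype.card_fin]) (Real.sqrt_nonneg _) (Real.sq_sqrt hμ0) (by linarith)
    (by linarith) j
  rw [h2, cubeWt_form]
  calc (2 : ℝ) ^ R * ∑ S : Finset (Fin R), (1 - 2 * ε) ^ S.card * fc f S ^ 2
      ≤ 2 ^ R * ((3 ^ j * Real.sqrt μ + (1 - 2 * ε) ^ j) * μ) :=
        mul_le_mul_of_nonneg_left h3 h2R.le
    _ = (3 ^ j * Real.sqrt μ + (1 - 2 * ε) ^ j) * S.card := by
        rw [hμ]
        field_simp
    _ ≤ _ := by
        refine mul_le_mul_of_nonneg_right ?_ (Nat.cast_nonneg _)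
        have : Real.sqrt μ ≤ Real.sqrt δ := Real.sqrt_le_sqrt hμδ
        have h4 : (3 : ℝ) ^ j * Real.sqrt μ ≤ 3 ^ j * Real.sqrt δ :=
          mul_le_mul_of_nonneg_left this (by positivity)
        linarith

theorem expansion_ge {ε : ℝ} (h0 : 0 ≤ ε) (h1 : 2 * ε ≤ 1) (S : Finset (Fin R → Bool))
    (hne : S.Nonempty) (δ : ℝ) (hδ : 0 ≤ δ) (hS : (S.card : ℝ) ≤ δ * 2 ^ R) (j : ℕ) :
    1 - (3 ^ j * Real.sqrt δ + (1 - 2 * ε) ^ j) ≤ expansion (cubeWt ε) S := by
  have hpos : (0 : ℝ) < S.card := by exact_mod_cast hne.card_pos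
  unfold expansion
  rw [le_div_iff₀ hpos]
  have h2 : ∀ x, ∑ y ∈ Sᶜ, cubeWt ε x y = 1 - ∑ y ∈ S, cubeWt ε x y := by
    intro x
    rw [← cubeWt_sum ε x, ← Finset.sum_add_sum_compl S]
    ring
  simp only [h2]
  rw [Finset.sum_sub_distrib, Finset.sum_const, nsmul_eq_mul, mul_one]
  have := inside_le h0 h1 S δ hδ hS j
  linarith

/-- the inner product -/
def ip (x y : Fin R → Bool) : ℝ := ∑ i, sg (x i) * sg (y i)

theorem sg_one (b : Bool) : sg b = 1 ∨ sg b = -1 := by cases b <;> simp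

theorem ip_mean (ε : ℝ) (x : Fin R → Bool) : ∑ y, cubeWt ε x y * ip x y = R * (1 - 2 * ε) := by
  unfold ip
  simp only [Finset.mul_sum]
  rw [Finset.sum_comm]
  have h1 : ∀ i : Fin R, ∑ y, cubeWt ε x y * (sg (x i) * sg (y i)) = 1 - 2 * ε := by
    intro i
    have h2 : ∀ y : Fin R → Bool, cubeWt ε x y * (sg (x i) * sg (y i)) =
        ∏ l, (if x l = y l then 1 - ε else ε) * (if l = i then sg (x l) * sg (y l) else 1) := by
      intro y
      rw [Finset.prod_mul_distrib, Finset.prod_ite_eq' univ i (fun l => sg (x l) * sg (y l)),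
        if_pos (mem_univ i)]
      rfl
    simp only [h2]
    rw [sum_prod_cube (fun l b => (if x l = b then 1 - ε else ε) *
      (if l = i then sg (x l) * sg b else 1))]
    rw [Finset.prod_eq_single i]
    · simp only [if_true]
      cases x i <;> simp <;> ring
    · intro l _ hl
      simp only [if_neg hl, mul_one]
      cases x l <;> simp
    · intro h
      exact absurd (mem_univ _) h
  simp only [h1]
  rw [Finset.sum_const, card_univ, Fintype.card_fin, nsmul_eq_mul]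

theorem ip_sq_mean (ε : ℝ) (hε0 : 0 ≤ ε) (hε1 : ε ≤ 1) (hR : 0 < R) (x : Fin R → Bool) :
    (1 - 2 * ε) ^ 2 ≤ ∑ y, cubeWt ε x y * (ip x y / R) ^ 2 := by
  have hR0 : (0 : ℝ) < R := by exact_mod_cast hR
  have h1 : 0 ≤ ∑ y, cubeWt ε x y * (ip x y / R - (1 - 2 * ε)) ^ 2 :=
    Finset.sum_nonneg fun y _ => mul_nonneg (cubeWt_nonneg hε0 hε1 x y) (sq_nonneg _)
  have h2 : ∑ y, cubeWt ε x y * (ip x y / R - (1 - 2 * ε)) ^ 2 =
      ∑ y, cubeWt ε x y * (ip x y / R) ^ 2 - 2 * (1 - 2 * ε) / R * ∑ y, cubeWt ε x y * ip x y +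
        (1 - 2 * ε) ^ 2 * ∑ y, cubeWt ε x y := by
    rw [Finset.mul_sum, Finset.mul_sum, ← Finset.sum_sub_distrib, ← Finset.sum_add_distrib]
    refine Finset.sum_congr rfl fun y _ => ?_
    field_simp
    ring
  rw [h2, ip_mean, cubeWt_sum] at h1
  have h3 : 2 * (1 - 2 * ε) / R * (R * (1 - 2 * ε)) = 2 * (1 - 2 * ε) ^ 2 := by
    field_simp
  rw [h3] at h1
  linarith

theorem ip_sq_sum (x : Fin R → Bool) : ∑ y, ip x y ^ 2 = R * 2 ^ R := by
  unfold ip
  have h1 : ∀ y : Fin R → Bool, (∑ i, sg (x i) * sg (y i)) ^ 2 =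
      ∑ i, ∑ j, (sg (x i) * sg (x j)) * (walsh {i} y * walsh {j} y) := by
    intro y
    rw [sq, Finset.sum_mul_sum]
    refine Finset.sum_congr rfl fun i _ => Finset.sum_congr rfl fun j _ => ?_
    simp only [walsh, Finset.prod_singleton]
    ring
  simp only [h1]
  rw [Finset.sum_comm, Finset.sum_congr rfl fun i _ => Finset.sum_comm]
  simp only [← Finset.mul_sum, walsh_orth]
  have h2 : ∀ i : Fin R, ∑ j, sg (x i) * sg (x j) *
      (if ({i} : Finset (Fin R)) = {j} then (2 : ℝ) ^ Fintype.card (Fin R) else 0) = 2 ^ R := by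
    intro i
    rw [Finset.sum_eq_single i]
    · rw [if_pos rfl, sg_mul_self, one_mul, Fintype.card_fin]
    · intro j _ hj
      rw [if_neg (fun h => hj (Finset.singleton_injective h).symm), mul_zero]
    · intro h
      exact absurd (mem_univ _) h
  simp only [h2]
  rw [Finset.sum_const, card_univ, Fintype.card_fin, nsmul_eq_mul]

theorem pts_tri {V D : Type} [Fintype D] (z : D → ℝ) (x : V → D → ℝ) (p : ℝ) (hp : 2 * p ≤ 1)
    (hp0 : 0 ≤ p) (hz : z ⬝ᵥ z = 1) (hx : ∀ v, x v ⬝ᵥ x v = p) (hzx : ∀ v, z ⬝ᵥ x v = p)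
    (hpos : ∀ v w, 0 ≤ x v ⬝ᵥ x w)
    (htri : ∀ v w u, x v ⬝ᵥ x w + x v ⬝ᵥ x u ≤ p + x w ⬝ᵥ x u) (i j k : Option (Option V)) :
    0 ≤ (pts z x i - pts z x j) ⬝ᵥ (pts z x i - pts z x k) := by
  have h1 : ∀ i : Option (Option V), ∃ i' : Option (Option (V × Unit)),
      pts z x i = vec z (fun v (_ : Unit) => x v) i' := by
    intro i
    rcases i with - | - | i
    · exact ⟨none, rfl⟩
    · exact ⟨some none, rfl⟩
    · exact ⟨some (some (i, ())), rfl⟩
  obtain ⟨i', hi⟩ := h1 i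
  obtain ⟨j', hj⟩ := h1 j
  obtain ⟨k', hk⟩ := h1 k
  rw [hi, hj, hk]
  exact tri_all z (fun v (_ : Unit) => x v) p hp hp0 hz (fun v _ => hx v) (fun v _ => hzx v)
    (fun v _ w _ => hpos v w) (fun v _ w _ u _ => htri v w u) i' j' k'

/-- the solution of the relaxation -/
theorem cube_sol (hR : 0 < R) (p : ℝ) (hp0 : 0 ≤ p) (hp2 : 2 * p ≤ 1) (ε : ℝ) (hε0 : 0 ≤ ε)
    (hε1 : ε ≤ 1) :
    Sol (cubeWt (R := R) ε) (fun _ => p) (fun _ => 2 ^ R * (p ^ 2 + (p - p ^ 2) / R))
      (2 ^ R * ((p - p ^ 2) * (1 - (1 - 2 * ε) ^ 2))) := by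
  have hR0 : (0 : ℝ) < R := by exact_mod_cast hR
  obtain ⟨q, hq⟩ : ∃ q : ℝ, q = p - p ^ 2 := ⟨_, rfl⟩
  have hq0 : 0 ≤ q := by
    rw [hq]
    nlinarith
  obtain ⟨z, hz⟩ : ∃ z : Option (Fin R × Fin R) → ℝ, z = fun d => d.elim 1 fun _ => 0 := ⟨_, rfl⟩
  obtain ⟨x, hx⟩ : ∃ x : (Fin R → Bool) → Option (Fin R × Fin R) → ℝ,
      x = fun v d => d.elim p fun ij => Real.sqrt q * (sg (v ij.1) * sg (v ij.2)) / R := ⟨_, rfl⟩
  have hzz : z ⬝ᵥ z = 1 := by
    rw [hz, dotProduct, Fintype.sum_option]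
    simp
  have hzx : ∀ v, z ⬝ᵥ x v = p := by
    intro v
    rw [hz, hx, dotProduct, Fintype.sum_option]
    simp
  have hdot : ∀ v w, x v ⬝ᵥ x w = p ^ 2 + q * (ip v w / R) ^ 2 := by
    intro v w
    rw [hx, dotProduct, Fintype.sum_option]
    simp only [Option.elim_none, Option.elim_some]
    have h1 : (ip v w) ^ 2 = ∑ ij : Fin R × Fin R,
        (sg (v ij.1) * sg (w ij.1)) * (sg (v ij.2) * sg (w ij.2)) := by
      unfold ip
      rw [sq, Finset.sum_mul_sum, Fintype.sum_prod_type]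
    rw [div_pow, h1, Finset.sum_div, Finset.mul_sum]
    congr 1
    · ring
    · refine Finset.sum_congr rfl fun ij _ => ?_
      have h2 := Real.mul_self_sqrt hq0
      calc Real.sqrt q * (sg (v ij.1) * sg (v ij.2)) / R *
            (Real.sqrt q * (sg (w ij.1) * sg (w ij.2)) / R)
          = (Real.sqrt q * Real.sqrt q) * ((sg (v ij.1) * sg (w ij.1)) *
            (sg (v ij.2) * sg (w ij.2)) / R ^ 2) := by
            field_simp
        _ = _ := by rw [h2]
  have hself : ∀ v, x v ⬝ᵥ x v = p := by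
    intro v
    have h1 : ip v v = R := by
      unfold ip
      simp only [sg_mul_self]
      rw [Finset.sum_const, card_univ, Fintype.card_fin, nsmul_eq_mul, mul_one]
    rw [hdot, h1, div_self hR0.ne', hq]
    ring
  have hpos : ∀ v w, 0 ≤ x v ⬝ᵥ x w := by
    intro v w
    rw [hdot]
    positivity
  have htri : ∀ v w u, x v ⬝ᵥ x w + x v ⬝ᵥ x u ≤ p + x w ⬝ᵥ x u := by
    intro v w u
    rw [hdot, hdot, hdot]
    have h1 := cube_tri (fun i => sg (v i)) (fun i => sg (w i)) (fun i => sg (u i))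
      (fun i => sg_one _) (fun i => sg_one _) (fun i => sg_one _)
    rw [Fintype.card_fin] at h1
    have h2 : ip v w ^ 2 + ip v u ^ 2 ≤ (R : ℝ) ^ 2 + ip w u ^ 2 := h1
    have h3 : (ip v w / R) ^ 2 + (ip v u / R) ^ 2 ≤ 1 + (ip w u / R) ^ 2 := by
      rw [div_pow, div_pow, div_pow, ← add_div, div_le_iff₀ (by positivity)]
      have h4 : (1 + ip w u ^ 2 / (R : ℝ) ^ 2) * R ^ 2 = R ^ 2 + ip w u ^ 2 := by field_simp
      rw [h4]
      exact h2
    have h4 := mul_le_mul_of_nonneg_left h3 hq0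
    have h5 : p = p ^ 2 + q := by rw [hq]; ring
    linarith
  refine ⟨Option (Fin R × Fin R), inferInstance, z, x, hzz, fun v => by rw [hself, hzx],
    pts_tri z x p hp2 hp0 hzz hself hzx hpos htri, fun v => (hself v).symm, fun v => ?_, ?_⟩
  · simp only [hdot]
    have h1 : ∑ w : Fin R → Bool, q * (ip v w / R) ^ 2 = 2 ^ R * (q / R) := by
      have h2 : ∀ w : Fin R → Bool, q * (ip v w / R) ^ 2 = q / R ^ 2 * ip v w ^ 2 := by
        intro w
        rw [div_pow]
        ring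
      simp only [h2]
      rw [← Finset.mul_sum, ip_sq_sum]
      field_simp
    rw [Finset.sum_add_distrib, h1, Finset.sum_const, card_univ, Fintype.card_fun,
      Fintype.card_bool, Fintype.card_fin, nsmul_eq_mul, ← hq]
    push_cast
    apply le_of_eq
    ring
  · have h1 : ∀ v w, x v ⬝ᵥ (z - x w) = q - q * (ip v w / R) ^ 2 := by
      intro v w
      rw [dotProduct_sub, dotProduct_comm, hzx, hdot, hq]
      ring
    have h2 : ∀ v, ∑ w, cubeWt ε v w * (x v ⬝ᵥ (z - x w)) ≤ q * (1 - (1 - 2 * ε) ^ 2) := by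
      intro v
      have h3 : ∑ w, cubeWt ε v w * (x v ⬝ᵥ (z - x w)) =
          q * ∑ w, cubeWt ε v w - q * ∑ w, cubeWt ε v w * (ip v w / R) ^ 2 := by
        rw [Finset.mul_sum, Finset.mul_sum, ← Finset.sum_sub_distrib]
        refine Finset.sum_congr rfl fun w _ => ?_
        rw [h1]
        ring
      rw [h3, cubeWt_sum]
      have h4 := mul_le_mul_of_nonneg_left (ip_sq_mean ε hε0 hε1 hR v) hq0
      linarith
    refine (Finset.sum_le_sum fun v _ => h2 v).trans (le_of_eq ?_)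
    rw [Finset.sum_const, card_univ, Fintype.card_fun, Fintype.card_bool, Fintype.card_fin,
      nsmul_eq_mul, ← hq]
    push_cast
    ring

end

end Pool.Agent.W888.SX
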