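import Pool.Agent.W888.SX.Cube

set_option autoImplicit false
set_option linter.unusedSectionVars false

/-!
Branch-and-cut for small-set expansion on the noisy cube.
-/

namespace Pool.Agent.W888.SX

open Finset Matrix
open Pool.Agent.W888.UG (lab lab_apply Tree full full_proves SplitProof cover_of_tree tree_of_split)

/-- All integral points are excluded if the small sets expand. -/
theorem full_ok {V : Type} [Fintype V] [DecidableEq V] (wt : V → V → ℝ) (s₁ s₂ η : ℝ)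
    (hs : 0 < s₁)
    (h : ∀ S : Finset V, S.Nonempty → (S.card : ℝ) ≤ s₂ → η < expansion wt S) :
    (full ((univ : Finset V).toList.map fun v => (v, true))).Proves (Relax wt s₁ s₂ η)
      Set.univ := by
  refine full_proves _ _ _ ?_
  rintro μ - h01 ⟨D, iD, z, x, h1, h2, h3, h4, h5, h6, h7⟩
  have h01' : ∀ v, μ v true ≤ 0 ∨ 1 ≤ μ v true := fun v => h01 (v, true) (by simp)
  have hnn : ∀ v, 0 ≤ x v ⬝ᵥ x v := fun v => Finset.sum_nonneg fun d _ => mul_self_nonneg _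
  have hle : ∀ v, (x v - z) ⬝ᵥ (x v - z) = 1 - x v ⬝ᵥ x v := by
    intro v
    rw [sub_dotProduct, dotProduct_sub, dotProduct_sub, h1, dotProduct_comm (x v) z, ← h2]
    ring
  have hle1 : ∀ v, x v ⬝ᵥ x v ≤ 1 := by
    intro v
    have h8 := hle v
    have h9 : 0 ≤ (x v - z) ⬝ᵥ (x v - z) := Finset.sum_nonneg fun d _ => mul_self_nonneg _
    linarith
  classical
  obtain ⟨S, hS⟩ : ∃ S : Finset V, S = univ.filter fun v => 1 ≤ μ v true := ⟨_, rfl⟩
  have hin : ∀ v ∈ S, x v = z := by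
    intro v hv
    rw [hS, mem_filter, (h4 v).1] at hv
    have h8 : x v ⬝ᵥ x v = 1 := le_antisymm (hle1 v) hv.2
    have h9 : (x v - z) ⬝ᵥ (x v - z) = 0 := by rw [hle, h8, sub_self]
    have h10 := dotProduct_self_eq_zero.1 h9
    exact sub_eq_zero.1 h10
  have hout : ∀ v ∉ S, x v = 0 := by
    intro v hv
    rw [hS, mem_filter, not_and] at hv
    have h8 := (h01' v).resolve_right (hv (mem_univ v))
    rw [(h4 v).1] at h8
    exact dotProduct_self_eq_zero.1 (le_antisymm h8 (hnn v))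
  have hself : ∀ v, x v ⬝ᵥ x v = if v ∈ S then 1 else 0 := by
    intro v
    by_cases hv : v ∈ S
    · rw [if_pos hv, hin v hv, h1]
    · rw [if_neg hv, hout v hv, dotProduct_zero]
  have hsum : ∑ v, x v ⬝ᵥ x v = S.card := by
    simp only [hself]
    rw [Finset.sum_ite_mem, Finset.univ_inter, Finset.sum_const, nsmul_eq_mul, mul_one]
  rw [hsum] at h6 h7
  have hne : S.Nonempty := by
    rw [← Finset.card_pos]
    have : (0 : ℝ) < S.card := lt_of_lt_of_le hs h6
    exact_mod_cast this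
  have hcard : (S.card : ℝ) ≤ s₂ := by
    obtain ⟨v, hv⟩ := hne
    have h8 := h5 v
    rw [hself, if_pos hv, mul_one] at h8
    have h9 : ∀ w, x v ⬝ᵥ x w = if w ∈ S then 1 else 0 := by
      intro w
      by_cases hw : w ∈ S
      · rw [if_pos hw, hin v hv, hin w hw, h1]
      · rw [if_neg hw, hout w hw, dotProduct_zero]
    simp only [h9] at h8
    rwa [Finset.sum_ite_mem, Finset.univ_inter, Finset.sum_const, nsmul_eq_mul, mul_one] at h8
  have hexp := h S hne hcard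
  have hpos : (0 : ℝ) < S.card := by exact_mod_cast hne.card_pos
  unfold expansion at hexp
  rw [lt_div_iff₀ hpos] at hexp
  have h8 : ∑ v, ∑ w, wt v w * (x v ⬝ᵥ (z - x w)) = ∑ v ∈ S, ∑ w ∈ Sᶜ, wt v w := by
    have h9 : ∀ v, ∑ w, wt v w * (x v ⬝ᵥ (z - x w)) =
        if v ∈ S then ∑ w ∈ Sᶜ, wt v w else 0 := by
      intro v
      by_cases hv : v ∈ S
      · rw [if_pos hv]
        have h10 : ∀ w, wt v w * (x v ⬝ᵥ (z - x w)) = if w ∈ Sᶜ then wt v w else 0 := by
          intro w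
          by_cases hw : w ∈ S
          · rw [if_neg fun h => (mem_compl.1 h) hw, hin w hw, sub_self, dotProduct_zero, mul_zero]
          · rw [if_pos (mem_compl.2 hw), hin v hv, hout w hw, sub_zero, h1, mul_one]
        simp only [h10]
        rw [Finset.sum_ite_mem, Finset.univ_inter]
      · rw [if_neg hv]
        refine Finset.sum_eq_zero fun w _ => ?_
        rw [hout v hv, zero_dotProduct, mul_zero]
    simp only [h9]
    rw [Finset.sum_ite_mem, Finset.univ_inter]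
  rw [h8] at h7
  linarith

/-- The main theorem, for covers by convex sets. -/
theorem main (η β δ : ℝ) (hη : 0 < η) (hη1 : η ≤ 1) (hβ : 0 < β) (hβ1 : β ≤ 1) (hδ : 0 < δ)
    (hδ3 : δ ≤ 1 / 3) :
    ∃ γ : ℝ, 0 < γ ∧ ∃ R0 : ℕ, ∀ R : ℕ, R0 ≤ R →
      ∀ F : List (Set ((Fin R → Bool) → Bool → ℝ)), (∀ C ∈ F, Convex ℝ C) →
        (∀ C ∈ F, ∀ μ ∈ C, μ ∉ Relax (cubeWt (η / 16)) ((1 - β) * (δ * 2 ^ R)) (δ * 2 ^ R) η) →
        (∀ o : (Fin R → Bool) → Bool, ∃ C ∈ F, lab o ∈ C) →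
        (2 : ℝ) ^ (γ * 2 ^ R) ≤ F.length := by
  obtain ⟨p, hp⟩ : ∃ p : ℝ, p = (1 - β / 2) * δ := ⟨_, rfl⟩
  obtain ⟨τ, hτ⟩ : ∃ τ : ℝ, τ = β * η / 144 := ⟨_, rfl⟩
  obtain ⟨ξ, hξ⟩ : ∃ ξ : ℝ, ξ = β * η * δ / 96 := ⟨_, rfl⟩
  obtain ⟨ζ, hζ⟩ : ∃ ζ : ℝ, ζ = β * δ / 32 := ⟨_, rfl⟩
  have hβη : β * η ≤ β := mul_le_of_le_one_right hβ.le hη1
  have hβη' : β * η ≤ η := mul_le_of_le_one_left hη.le hβ1
  have hβδ : β * δ ≤ δ := mul_le_of_le_one_left hδ.le hβ1
  have hβη0 : 0 < β * η := mul_pos hβ hη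
  have hβδ0 : 0 < β * δ := mul_pos hβ hδ
  have hτ0 : 0 < τ := by rw [hτ]; positivity
  have hξ0 : 0 < ξ := by rw [hξ]; positivity
  have hζ0 : 0 < ζ := by rw [hζ]; positivity
  have hpδ : p = δ - β * δ / 2 := by rw [hp]; ring
  have hp2 : δ / 2 ≤ p := by rw [hpδ]; linarith
  have hpδ' : p ≤ δ := by rw [hpδ]; linarith
  have hp0 : 0 < p := by linarith
  have hp3 : 3 * p ≤ 1 := by linarith
  have hξζ : ξ ≤ ζ := by
    rw [hξ, hζ]
    have : β * η * δ ≤ β * δ := by
      calc β * η * δ ≤ β * 1 * δ := by gcongr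
        _ = β * δ := by ring
    linarith
  have hτ144 : τ ≤ β / 144 := by rw [hτ]; linarith
  have hτη : τ ≤ η / 144 := by rw [hτ]; linarith
  have hξη : 3 * ξ ≤ p * η / 16 := by
    rw [hξ]
    have e1 : β * η * δ ≤ 1 * η * δ := by gcongr
    have e2 : δ / 2 * η ≤ p * η := mul_le_mul_of_nonneg_right hp2 hη.le
    linarith
  have hξβ : ξ ≤ β / 96 := by
    rw [hξ]
    have e1 : β * η * δ ≤ β * 1 * 1 := by
      have : δ ≤ 1 := by linarith
      gcongr
    linarith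
  refine ⟨ξ * (τ ^ 2 * p / 4), by positivity, ⌈1 / ζ⌉₊ + 1, ?_⟩
  intro R hR F hconv hmiss hcov
  by_contra hcon
  push Not at hcon
  obtain ⟨n, hn⟩ : ∃ n : ℝ, n = 2 ^ R := ⟨_, rfl⟩
  have hn0 : 0 < n := by rw [hn]; positivity
  have hRpos : 0 < R := by omega
  have hR0 : (0 : ℝ) < R := by exact_mod_cast hRpos
  have hRζ : 1 / (R : ℝ) ≤ ζ := by
    rw [div_le_iff₀ hR0]
    have h1 : 1 / ζ ≤ ((⌈1 / ζ⌉₊ : ℕ) : ℝ) := Nat.le_ceil _
    have h2 : ((⌈1 / ζ⌉₊ : ℕ) : ℝ) ≤ R := by exact_mod_cast (by omega : ⌈1 / ζ⌉₊ ≤ R)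
    have h3 : 1 / ζ ≤ R := h1.trans h2
    rw [div_le_iff₀ hζ0] at h3
    linarith
  have hnR : (R : ℝ) ≤ n := by
    rw [hn]
    exact_mod_cast (Nat.lt_two_pow_self (n := R)).le
  have hnζ : 1 ≤ ζ * n := by
    have h1 : 1 / n ≤ 1 / (R : ℝ) := one_div_le_one_div_of_le hR0 hnR
    have h2 := h1.trans hRζ
    rwa [div_le_iff₀ hn0] at h2
  rw [← hn] at hcon
  obtain ⟨C, hC, μ, hμC, Bd, hBd, hμ0, hμ1, hnear⟩ := exists_near
    (fun (_ : Fin R → Bool) (a : Bool) => if a then p else 1 - p)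
    (fun _ a => by cases a <;> simp <;> linarith)
    (fun _ => by rw [Fintype.sum_bool]; simp) F hconv hcov τ p hτ0 (by linarith) hp0
    (fun _ a => by cases a <;> simp; linarith)
  have hFpos : (0 : ℝ) < F.length := by
    exact_mod_cast List.length_pos_of_mem hC
  have hBdn : (Bd.card : ℝ) ≤ ξ * n := by
    have h1 := Real.log_le_log hFpos hcon.le
    rw [Real.log_rpow (by norm_num)] at h1
    have h2 : ξ * (τ ^ 2 * p / 4) * n * Real.log 2 ≤ ξ * (τ ^ 2 * p / 4) * n * 1 := by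
      refine mul_le_mul_of_nonneg_left ?_ (by positivity)
      have := Real.log_two_lt_d9
      linarith
    have h3 : (Bd.card : ℝ) * (τ ^ 2 * p / 4) ≤ (ξ * n) * (τ ^ 2 * p / 4) := by
      calc (Bd.card : ℝ) * (τ ^ 2 * p / 4) ≤ Real.log F.length := hBd
        _ ≤ _ := h1
        _ ≤ _ := h2
        _ = _ := by ring
    exact le_of_mul_le_mul_right h3 (by positivity)
  have hcardV : (Fintype.card (Fin R → Bool) : ℝ) = n := by
    rw [Fintype.card_fun, Fintype.card_bool, Fintype.card_fin, hn]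
    push_cast
    rfl
  have hlow : ∀ v ∉ Bd, (1 - τ) * p ≤ μ v true := by
    intro v hv
    have := (hnear v hv true).1
    rwa [if_pos rfl] at this
  have hup : ∀ v ∉ Bd, μ v true ≤ (1 + 2 * τ) * p := by
    intro v hv
    have := (hnear v hv true).2
    rwa [if_pos rfl] at this
  have hμsum : ∀ v, μ v true + μ v false = 1 := by
    intro v
    have := hμ1 v
    rwa [Fintype.sum_bool] at this
  have hμle : ∀ v, μ v true ≤ 1 := by
    intro v
    have h1 := hμsum v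
    have h2 := hμ0 v false
    linarith
  have hε0 : 0 ≤ η / 16 := by positivity
  have hε1 : η / 16 ≤ 1 := by linarith
  have hsol := sol_near (cubeWt (R := R) (η / 16)) (cubeWt_nonneg hε0 hε1)
    (fun v => (cubeWt_sum _ v).le) (fun w => (cubeWt_sum' _ w).le) p
    (2 ^ R * (p ^ 2 + (p - p ^ 2) / R)) (2 ^ R * ((p - p ^ 2) * (1 - (1 - 2 * (η / 16)) ^ 2)))
    (n * (p + ζ + ζ)) (δ * n) hp0.le (by linarith)
    (cube_sol hRpos p hp0.le (by linarith) (η / 16) hε0 hε1) Bd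
    (by
      rw [← hn]
      have e1 : (p - p ^ 2) / R ≤ p * ζ := by
        calc (p - p ^ 2) / R ≤ p / R := by
              apply div_le_div_of_nonneg_right _ hR0.le
              nlinarith
          _ = p * (1 / R) := by ring
          _ ≤ p * ζ := mul_le_mul_of_nonneg_left hRζ hp0.le
      have e2 : (Bd.card : ℝ) * p ≤ (ζ * n) * p := by
        refine mul_le_mul_of_nonneg_right ?_ hp0.le
        exact hBdn.trans (mul_le_mul_of_nonneg_right hξζ hn0.le)
      calc n * (p ^ 2 + (p - p ^ 2) / R) + (Bd.card : ℝ) * p ≤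
            n * (p ^ 2 + p * ζ) + (ζ * n) * p := by
              have := mul_le_mul_of_nonneg_left e1 hn0.le
              linarith
        _ = p * (n * (p + ζ + ζ)) := by ring)
    (by
      rw [hcardV]
      have e1 : (Bd.card : ℝ) ≤ ζ * n := hBdn.trans (mul_le_mul_of_nonneg_right hξζ hn0.le)
      have e2 : 0 ≤ ζ * n := by positivity
      linarith)
    (fun v => μ v true) (fun v => hμ0 v true) hμle τ hτ0
    (by
      have := mul_le_mul_of_nonneg_left hp3 hτ0.le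
      linarith)
    (by linarith) hlow hup
    (by
      rw [hcardV]
      have e1 : 6 * τ * (1 + (Bd.card + 3 * p * n)) ≤ 6 * τ * (ζ * n + (ζ * n + 3 * p * n)) := by
        refine mul_le_mul_of_nonneg_left ?_ (by positivity)
        have : (Bd.card : ℝ) ≤ ζ * n := hBdn.trans (mul_le_mul_of_nonneg_right hξζ hn0.le)
        linarith
      have e2 : 6 * τ * (ζ * n + (ζ * n + 3 * p * n)) = 6 * τ * (2 * ζ * n) + 18 * τ * p * n := by
        ring
      have e3 : 6 * τ * (2 * ζ * n) ≤ 1 * (2 * ζ * n) :=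
        mul_le_mul_of_nonneg_right (by linarith) (by positivity)
      have e4 : 18 * τ * p * n ≤ (18 * (β / 144) * δ) * n := by gcongr
      have e5 : (18 * (β / 144) * δ) = 4 * ζ := by rw [hζ]; ring
      rw [e5] at e4
      have e6 : p + 8 * ζ ≤ δ := by
        rw [hpδ, hζ]
        linarith
      have e7 := mul_le_mul_of_nonneg_right e6 hn0.le
      linarith)
    (by positivity)
  obtain ⟨D, iD, z, x, h1, h2, h3, h4, h5, h6⟩ := hsol
  have hsum_low : n * p * (1 - ξ - τ) ≤ ∑ v, μ v true := by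
    have e1 : ∀ v, (1 - τ) * p - (if v ∈ Bd then (1 - τ) * p else 0) ≤ μ v true := by
      intro v
      by_cases hv : v ∈ Bd
      · rw [if_pos hv, sub_self]
        exact hμ0 v true
      · rw [if_neg hv, sub_zero]
        exact hlow v hv
    refine le_trans ?_ (Finset.sum_le_sum fun v _ => e1 v)
    rw [Finset.sum_sub_distrib, Finset.sum_const, card_univ, nsmul_eq_mul, Finset.sum_ite_mem,
      Finset.univ_inter, Finset.sum_const, nsmul_eq_mul, hcardV]
    have e2 : (Bd.card : ℝ) * ((1 - τ) * p) ≤ (ξ * n) * ((1 - τ) * p) :=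
      mul_le_mul_of_nonneg_right hBdn (mul_nonneg (by linarith) hp0.le)
    have e3 : 0 ≤ n * p * ξ * τ := by positivity
    calc n * p * (1 - ξ - τ) ≤ n * p * (1 - ξ - τ) + n * p * ξ * τ := by linarith
      _ = n * ((1 - τ) * p) - (ξ * n) * ((1 - τ) * p) := by ring
      _ ≤ _ := by linarith
  refine hmiss C hC μ hμC ⟨D, iD, z, x, h1, h2, h3, fun v => ⟨h4 v, ?_⟩, fun v => ?_, ?_, ?_⟩
  · rw [← h4 v]
    linarith [hμsum v]
  · rw [← h4 v, ← hn]
    exact h5 v
  · rw [← hn]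
    simp only [← h4]
    refine le_trans ?_ hsum_low
    have e1 : (1 - β) * δ ≤ p * (1 - ξ - τ) := by
      have e2 : p * (ξ + τ) ≤ δ * (β / 2) := by
        have : ξ + τ ≤ β / 2 := by linarith
        exact mul_le_mul hpδ' this (by linarith) hδ.le
      have e3 : p * (1 - ξ - τ) = p - p * (ξ + τ) := by ring
      rw [e3, hpδ] at *
      linarith
    have := mul_le_mul_of_nonneg_left e1 hn0.le
    linarith
  · refine h6.trans ?_
    rw [← hn, hcardV]
    have e0 : ∑ v, x v ⬝ᵥ x v = ∑ v, μ v true := Finset.sum_congr rfl fun v _ => (h4 v).symm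
    rw [e0]
    have e1 : n * ((p - p ^ 2) * (1 - (1 - 2 * (η / 16)) ^ 2)) ≤ n * (p * (η / 4)) := by
      refine mul_le_mul_of_nonneg_left ?_ hn0.le
      have e2 : 1 - (1 - 2 * (η / 16)) ^ 2 ≤ η / 4 := by nlinarith [sq_nonneg η]
      have e3 : 0 ≤ 1 - (1 - 2 * (η / 16)) ^ 2 := by nlinarith
      have e4 : p - p ^ 2 ≤ p := by nlinarith
      exact mul_le_mul e4 e2 e3 hp0.le
    have e2 : 3 * (Bd.card : ℝ) ≤ n * (p * η / 16) := by
      have e3 : 3 * (Bd.card : ℝ) ≤ 3 * (ξ * n) := by linarith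
      have e4 : n * (3 * ξ) ≤ n * (p * η / 16) := mul_le_mul_of_nonneg_left hξη hn0.le
      linarith
    have e3 : 3 * τ * p * n ≤ n * (p * η / 48) := by
      have e4 : (3 * τ) * (p * n) ≤ (η / 48) * (p * n) :=
        mul_le_mul_of_nonneg_right (by linarith) (by positivity)
      linarith
    have e4 : η * (n * p * (1 - ξ - τ)) ≤ η * ∑ v, μ v true :=
      mul_le_mul_of_nonneg_left hsum_low hη.le
    have e5 : η * (n * p * (1 / 2)) ≤ η * (n * p * (1 - ξ - τ)) := by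
      refine mul_le_mul_of_nonneg_left ?_ hη.le
      refine mul_le_mul_of_nonneg_left ?_ (by positivity)
      linarith
    have e6 : 0 < n * p * η := by positivity
    linarith

/-- The main theorem. -/
theorem main_all (η β : ℝ) (hη : 0 < η) (hη1 : η < 1) (hβ : 0 < β) (hβ1 : β < 1) :
    ∃ δ₀ : ℝ, 0 < δ₀ ∧ ∀ δ : ℝ, 0 < δ → δ ≤ δ₀ → ∃ γ : ℝ, 0 < γ ∧ ∃ R₀ : ℕ, ∀ R : ℕ, R₀ ≤ R →
      (∀ S : Finset (Fin R → Bool), S.Nonempty → (S.card : ℝ) ≤ δ * 2 ^ R →
        1 - η ≤ expansion (cubeWt (η / 16)) S) ∧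
      (∀ F : List (Set ((Fin R → Bool) → Bool → ℝ)), (∀ C ∈ F, Convex ℝ C) →
        (∀ C ∈ F, ∀ μ ∈ C, μ ∉ Relax (cubeWt (η / 16)) ((1 - β) * (δ * 2 ^ R)) (δ * 2 ^ R) η) →
        (∀ o : (Fin R → Bool) → Bool, ∃ C ∈ F, lab o ∈ C) →
        (2 : ℝ) ^ (γ * 2 ^ R) ≤ F.length) ∧
      (∀ T : Tree (Fin R → Bool) Bool,
        T.Proves (Relax (cubeWt (η / 16)) ((1 - β) * (δ * 2 ^ R)) (δ * 2 ^ R) η) Set.univ →
        (2 : ℝ) ^ (γ * 2 ^ R) ≤ T.leaves) ∧
      (∀ l, SplitProof (Relax (cubeWt (R := R) (η / 16)) ((1 - β) * (δ * 2 ^ R)) (δ * 2 ^ R) η) l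
        Set.univ → (2 : ℝ) ^ (γ * 2 ^ R) ≤ 2 * l.length + 1) ∧
      (η < 1 / 2 → ∃ T : Tree (Fin R → Bool) Bool, T.leaves = 2 ^ 2 ^ R ∧
        T.Proves (Relax (cubeWt (η / 16)) ((1 - β) * (δ * 2 ^ R)) (δ * 2 ^ R) η) Set.univ) := by
  obtain ⟨j, hj⟩ : ∃ j : ℕ, (1 - 2 * (η / 16)) ^ j < η / 2 :=
    exists_pow_lt_of_lt_one (by positivity) (by linarith)
  refine ⟨min (1 / 3) ((η / (2 * 3 ^ j)) ^ 2), lt_min (by norm_num) (by positivity),
    fun δ hδ hδ0 => ?_⟩
  have hδ3 : δ ≤ 1 / 3 := hδ0.trans (min_le_left _ _)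
  have hδj : δ ≤ (η / (2 * 3 ^ j)) ^ 2 := hδ0.trans (min_le_right _ _)
  obtain ⟨γ, hγ, R0, h⟩ := main η β δ hη hη1.le hβ hβ1.le hδ hδ3
  refine ⟨γ, hγ, R0, fun R hR => ?_⟩
  have hexp : ∀ S : Finset (Fin R → Bool), S.Nonempty → (S.card : ℝ) ≤ δ * 2 ^ R →
      1 - η ≤ expansion (cubeWt (η / 16)) S := by
    intro S hne hS
    refine le_trans ?_ (expansion_ge (by positivity) (by linarith) S hne δ hδ.le hS j)
    have h1 : Real.sqrt δ ≤ η / (2 * 3 ^ j) := by
      rw [Real.sqrt_le_left (by positivity)]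
      exact hδj
    have h2 : (3 : ℝ) ^ j * Real.sqrt δ ≤ 3 ^ j * (η / (2 * 3 ^ j)) :=
      mul_le_mul_of_nonneg_left h1 (by positivity)
    have h3 : (3 : ℝ) ^ j * (η / (2 * 3 ^ j)) = η / 2 := by field_simp
    linarith
  have hcov := h R hR
  have htree : ∀ T : Tree (Fin R → Bool) Bool,
      T.Proves (Relax (cubeWt (η / 16)) ((1 - β) * (δ * 2 ^ R)) (δ * 2 ^ R) η) Set.univ →
      (2 : ℝ) ^ (γ * 2 ^ R) ≤ T.leaves := by
    intro T hT
    obtain ⟨Q, g1, g2, g3, g4⟩ := cover_of_tree _ T Set.univ convex_univ hT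
    rw [← g1]
    exact hcov Q g2 g3 fun x => g4 x (Set.mem_univ _)
  refine ⟨hexp, hcov, htree, fun l hl => ?_, fun hη2 => ?_⟩
  · obtain ⟨T, hT, hP⟩ := tree_of_split _ l _ hl
    have := htree T hP
    rw [hT] at this
    exact_mod_cast this
  · refine ⟨full ((univ : Finset (Fin R → Bool)).toList.map fun v => (v, true)), ?_,
      full_ok _ _ _ _ (by
        have : (0 : ℝ) < 2 ^ R := by positivity
        have : 0 < 1 - β := by linarith
        positivity) fun S hne hS => ?_⟩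
    · have hleaves : ∀ l : List ((Fin R → Bool) × Bool), (full l).leaves = 2 ^ l.length := by
        intro l
        induction l with
        | nil => rfl
        | cons p l ih =>
          show (full l).leaves + (full l).leaves = 2 ^ (l.length + 1)
          rw [ih, pow_succ]
          ring
      rw [hleaves, List.length_map, Finset.length_toList, card_univ, Fintype.card_fun,
        Fintype.card_bool, Fintype.card_fin]
    · have := hexp S hne hS
      linarith

end Pool.Agent.W888.SX
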