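import Pool.Agent.W888.SX.Bias

set_option autoImplicit false
set_option linter.unusedSectionVars false

/-!
The semidefinite relaxation of small-set expansion, and mixtures of its solutions.
-/

namespace Pool.Agent.W888.SX

open Finset Matrix
open Pool.Agent.W888.UG (lab lab_apply Tree dot_sigma)

/-- the points of a solution: the origin, the unit vector `z` and the vectors of the vertices -/
def pts {V D : Type} (z : D → ℝ) (x : V → D → ℝ) : Option (Option V) → D → ℝ
  | none => 0
  | some none => z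
  | some (some v) => x v

/-- The fractional points which the semidefinite relaxation does not exclude when it is used to
prove that no set `S` of vertices with `s₁ ≤ |S| ≤ s₂` has expansion at most `η`, for the weights
`wt` of the edges. There are a unit vector `z` and vectors `x v` (`z` for the vertices in `S`, `0`
for the others) with the squared norms `μ v true`, which satisfy all triangle inequalities of the
squared distances between the points `0`, `z`, `x v`, the size constraints and the bound for the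
weight of the boundary. -/
def Relax {V : Type} [Fintype V] (wt : V → V → ℝ) (s₁ s₂ η : ℝ) : Set (V → Bool → ℝ) :=
  {μ | ∃ (D : Type) (_ : Fintype D) (z : D → ℝ) (x : V → D → ℝ),
    z ⬝ᵥ z = 1 ∧ (∀ v, x v ⬝ᵥ x v = z ⬝ᵥ x v) ∧
    (∀ i j k, 0 ≤ (pts z x i - pts z x j) ⬝ᵥ (pts z x i - pts z x k)) ∧
    (∀ v, μ v true = x v ⬝ᵥ x v ∧ μ v false = 1 - x v ⬝ᵥ x v) ∧
    (∀ v, ∑ w, x v ⬝ᵥ x w ≤ s₂ * (x v ⬝ᵥ x v)) ∧ s₁ ≤ ∑ v, x v ⬝ᵥ x v ∧
    ∑ v, ∑ w, wt v w * (x v ⬝ᵥ (z - x w)) ≤ η * ∑ v, x v ⬝ᵥ x v}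

section

variable {V : Type} [Fintype V]

/-- solutions with marginals `μ`, sizes `σ` and boundary at most `β` -/
def Sol (wt : V → V → ℝ) (μ σ : V → ℝ) (β : ℝ) : Prop :=
  ∃ (D : Type) (_ : Fintype D) (z : D → ℝ) (x : V → D → ℝ),
    z ⬝ᵥ z = 1 ∧ (∀ v, x v ⬝ᵥ x v = z ⬝ᵥ x v) ∧
    (∀ i j k, 0 ≤ (pts z x i - pts z x j) ⬝ᵥ (pts z x i - pts z x k)) ∧
    (∀ v, μ v = x v ⬝ᵥ x v) ∧ (∀ v, ∑ w, x v ⬝ᵥ x w ≤ σ v) ∧
    ∑ v, ∑ w, wt v w * (x v ⬝ᵥ (z - x w)) ≤ β

theorem sol_mix (wt : V → V → ℝ) {J : Type} [Fintype J]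
    (p : J → ℝ) (hp : ∀ j, 0 ≤ p j) (hp1 : ∑ j, p j = 1) (μ σ : J → V → ℝ) (β : J → ℝ)
    (h : ∀ j, Sol wt (μ j) (σ j) (β j)) :
    Sol wt (fun v => ∑ j, p j * μ j v) (fun v => ∑ j, p j * σ j v) (∑ j, p j * β j) := by
  choose D iD z x h1 h2 h3 h4 h5 h6 using h
  have hd : ∀ v w, (fun d : Σ j, D j => Real.sqrt (p d.1) * x d.1 v d.2) ⬝ᵥ
      (fun d : Σ j, D j => Real.sqrt (p d.1) * x d.1 w d.2) =
      ∑ j, p j * (x j v ⬝ᵥ x j w) := fun v w =>
    dot_sigma p hp (fun j => x j v) (fun j => x j w)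
  refine ⟨Σ j, D j, inferInstance, fun d => Real.sqrt (p d.1) * z d.1 d.2,
    fun v d => Real.sqrt (p d.1) * x d.1 v d.2, ?_, ?_, ?_, ?_, ?_, ?_⟩
  · rw [dot_sigma p hp]
    simp only [h1, mul_one, hp1]
  · intro v
    beta_reduce
    rw [hd, dot_sigma p hp (fun j => z j) (fun j => x j v)]
    exact Finset.sum_congr rfl fun j _ => by rw [h2 j v]
  · have hv : ∀ i, pts (fun d : Σ j, D j => Real.sqrt (p d.1) * z d.1 d.2)
        (fun (v : V) (d : Σ j, D j) => Real.sqrt (p d.1) * x d.1 v d.2) i =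
        fun d : Σ j, D j => Real.sqrt (p d.1) * pts (z d.1) (x d.1) i d.2 := by
      intro i
      rcases i with - | - | i
      · funext d
        simp [pts]
      · rfl
      · rfl
    intro i j k
    rw [hv, hv, hv]
    have hw : ∀ i j, ((fun d : Σ j, D j => Real.sqrt (p d.1) * pts (z d.1) (x d.1) i d.2) -
        fun d : Σ j, D j => Real.sqrt (p d.1) * pts (z d.1) (x d.1) j d.2) =
        fun d : Σ j, D j => Real.sqrt (p d.1) *
          (pts (z d.1) (x d.1) i - pts (z d.1) (x d.1) j) d.2 := by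
      intro i j
      funext d
      simp only [Pi.sub_apply]
      ring
    rw [hw, hw, dot_sigma p hp (fun l => pts (z l) (x l) i - pts (z l) (x l) j)
      (fun l => pts (z l) (x l) i - pts (z l) (x l) k)]
    exact Finset.sum_nonneg fun l _ => mul_nonneg (hp l) (h3 l i j k)
  · intro v
    beta_reduce
    rw [hd]
    exact Finset.sum_congr rfl fun j _ => by rw [h4 j v]
  · intro v
    beta_reduce
    simp only [hd]
    rw [Finset.sum_comm]
    simp only [← Finset.mul_sum]
    exact Finset.sum_le_sum fun j _ => mul_le_mul_of_nonneg_left (h5 j v) (hp j)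
  · have h7 : ∀ v w, (fun d : Σ j, D j => Real.sqrt (p d.1) * x d.1 v d.2) ⬝ᵥ
        ((fun d : Σ j, D j => Real.sqrt (p d.1) * z d.1 d.2) -
          fun d : Σ j, D j => Real.sqrt (p d.1) * x d.1 w d.2) =
        ∑ j, p j * (x j v ⬝ᵥ (z j - x j w)) := by
      intro v w
      rw [← dot_sigma p hp (fun j => x j v) (fun j => z j - x j w)]
      congr 1
      funext d
      simp only [Pi.sub_apply]
      ring
    beta_reduce
    simp only [h7]
    have h8 : ∑ v, ∑ w, wt v w * ∑ j, p j * (x j v ⬝ᵥ (z j - x j w)) =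
        ∑ j, p j * ∑ v, ∑ w, wt v w * (x j v ⬝ᵥ (z j - x j w)) := by
      simp only [Finset.mul_sum]
      symm
      rw [Finset.sum_comm]
      refine Finset.sum_congr rfl fun v _ => ?_
      rw [Finset.sum_comm]
      refine Finset.sum_congr rfl fun w _ => Finset.sum_congr rfl fun j _ => ?_
      ring
    rw [h8]
    exact Finset.sum_le_sum fun j _ => mul_le_mul_of_nonneg_left (h6 j) (hp j)

/-- indicator of a set -/
def ind (o : V → Bool) (v : V) : ℝ := if o v then 1 else 0

theorem ind_nonneg (o : V → Bool) (v : V) : 0 ≤ ind o v := by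
  unfold ind
  split_ifs <;> norm_num

theorem ind_le (o : V → Bool) (v : V) : ind o v ≤ 1 := by
  unfold ind
  split_ifs <;> norm_num

theorem ind_sq (o : V → Bool) (v : V) : ind o v * ind o v = ind o v := by
  unfold ind
  split_ifs <;> norm_num

theorem sol_int (wt : V → V → ℝ) (hwt : ∀ v w, 0 ≤ wt v w) (hrow : ∀ v, ∑ w, wt v w ≤ 1)
    (o : V → Bool) :
    Sol wt (ind o) (fun v => ind o v * ∑ w, ind o w) (∑ w, ind o w) := by
  have hd : ∀ c d : ℝ, (fun _ : Unit => c) ⬝ᵥ (fun _ : Unit => d) = c * d := by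
    intro c d
    simp [dotProduct]
  refine ⟨Unit, inferInstance, fun _ => 1, fun v _ => ind o v, ?_, ?_, ?_, ?_, ?_, ?_⟩
  · rw [hd, one_mul]
  · intro v
    rw [hd, hd, one_mul, ind_sq]
  · have hv : ∀ i, ∃ c : ℝ, (c = 0 ∨ c = 1) ∧
        pts (fun _ : Unit => (1 : ℝ)) (fun (v : V) (_ : Unit) => ind o v) i = fun _ => c := by
      intro i
      rcases i with - | - | i
      · exact ⟨0, Or.inl rfl, rfl⟩
      · exact ⟨1, Or.inr rfl, rfl⟩
      · refine ⟨ind o i, ?_, rfl⟩
        unfold ind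
        split_ifs <;> simp
    intro i j k
    obtain ⟨a, ha, hi⟩ := hv i
    obtain ⟨b, hb, hj⟩ := hv j
    obtain ⟨c, hc, hk⟩ := hv k
    rw [hi, hj, hk]
    have h1 : ((fun _ : Unit => a) - fun _ : Unit => b) = fun _ => a - b := rfl
    have h2 : ((fun _ : Unit => a) - fun _ : Unit => c) = fun _ => a - c := rfl
    rw [h1, h2, hd]
    rcases ha with rfl | rfl <;> rcases hb with rfl | rfl <;> rcases hc with rfl | rfl <;> norm_num
  · intro v
    rw [hd, ind_sq]
  · intro v
    simp only [hd]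
    rw [Finset.mul_sum]
  · have h1 : ∀ v, ∑ w, wt v w * ((fun _ : Unit => ind o v) ⬝ᵥ
        ((fun _ : Unit => (1 : ℝ)) - fun _ : Unit => ind o w)) ≤ ind o v := by
      intro v
      have h2 : ∀ w, wt v w * ((fun _ : Unit => ind o v) ⬝ᵥ
          ((fun _ : Unit => (1 : ℝ)) - fun _ : Unit => ind o w)) ≤ wt v w * ind o v := by
        intro w
        have h3 : ((fun _ : Unit => (1 : ℝ)) - fun _ : Unit => ind o w) = fun _ => 1 - ind o w := rfl
        rw [h3, hd]
        refine mul_le_mul_of_nonneg_left ?_ (hwt v w)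
        have h4 := ind_nonneg o w
        have h5 := ind_nonneg o v
        nlinarith
      refine (Finset.sum_le_sum fun w _ => h2 w).trans ?_
      rw [← Finset.sum_mul]
      exact mul_le_of_le_one_left (ind_nonneg o v) (hrow v)
    exact Finset.sum_le_sum fun v _ => h1 v

variable [DecidableEq V]

/-- fixing the vertices in `Bd` -/
theorem sol_fix (wt : V → V → ℝ) (hwt : ∀ v w, 0 ≤ wt v w) (hrow : ∀ v, ∑ w, wt v w ≤ 1)
    (hcol : ∀ w, ∑ v, wt v w ≤ 1) (p σ0 β0 S : ℝ) (hp0 : 0 ≤ p) (hp1 : p ≤ 1)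
    (h : Sol wt (fun _ => p) (fun _ => σ0) β0) (Bd : Finset V)
    (hS1 : σ0 + Bd.card * p ≤ p * S) (hS2 : Bd.card + (Fintype.card V) * p ≤ S)
    (o : V → Bool) :
    Sol wt (fun v => if v ∈ Bd then ind o v else p)
      (fun v => (if v ∈ Bd then ind o v else p) * S) (β0 + 2 * Bd.card) := by
  obtain ⟨D, iD, z, x, h1, h2, h3, h4, h5, h6⟩ := h
  have hpos : ∀ i j, 0 ≤ pts z x i ⬝ᵥ pts z x j := by
    intro i j
    have h7 := h3 none i j
    have h8 : pts z x none = 0 := rfl
    rw [h8, zero_sub, zero_sub, neg_dotProduct, dotProduct_neg, neg_neg] at h7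
    exact h7
  have hzx : ∀ v, z ⬝ᵥ x v = p := fun v => by rw [← h2, ← h4 v]
  have hxz : ∀ v, x v ⬝ᵥ z = p := fun v => by rw [dotProduct_comm, hzx]
  have hxx : ∀ v w, 0 ≤ x v ⬝ᵥ x w := fun v w => hpos (some (some v)) (some (some w))
  obtain ⟨y, hy⟩ : ∃ y : V → D → ℝ, y = fun v => if v ∈ Bd then ind o v • z else x v := ⟨_, rfl⟩
  have hyin : ∀ v ∈ Bd, y v = ind o v • z := fun v hv => by rw [hy]; exact if_pos hv
  have hyout : ∀ v ∉ Bd, y v = x v := fun v hv => by rw [hy]; exact if_neg hv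
  have hypts : ∀ i, ∃ j, pts z y i = pts z x j := by
    intro i
    rcases i with - | - | i
    · exact ⟨none, rfl⟩
    · exact ⟨some none, rfl⟩
    · by_cases hi : i ∈ Bd
      · by_cases ho : o i = true
        · refine ⟨some none, ?_⟩
          show y i = z
          rw [hyin i hi]
          unfold ind
          rw [if_pos ho, one_smul]
        · refine ⟨none, ?_⟩
          show y i = 0
          rw [hyin i hi]
          unfold ind
          rw [if_neg ho, zero_smul]
      · exact ⟨some (some i), hyout i hi⟩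
  have hyy : ∀ v w, 0 ≤ y v ⬝ᵥ y w := by
    intro v w
    obtain ⟨i, hi⟩ := hypts (some (some v))
    obtain ⟨j, hj⟩ := hypts (some (some w))
    have h7 : y v ⬝ᵥ y w = pts z x i ⬝ᵥ pts z x j := by
      rw [← hi, ← hj]
      rfl
    rw [h7]
    exact hpos i j
  refine ⟨D, iD, z, y, h1, ?_, ?_, ?_, ?_, ?_⟩
  · intro v
    by_cases hv : v ∈ Bd
    · rw [hyin v hv, smul_dotProduct, dotProduct_smul, h1, smul_eq_mul, smul_eq_mul, mul_one,
        ind_sq]
    · rw [hyout v hv]
      exact h2 v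
  · intro i j k
    obtain ⟨i', hi⟩ := hypts i
    obtain ⟨j', hj⟩ := hypts j
    obtain ⟨k', hk⟩ := hypts k
    rw [hi, hj, hk]
    exact h3 i' j' k'
  · intro v
    beta_reduce
    by_cases hv : v ∈ Bd
    · rw [if_pos hv, hyin v hv, smul_dotProduct, dotProduct_smul, h1, smul_eq_mul, smul_eq_mul,
        mul_one, ind_sq]
    · rw [if_neg hv, hyout v hv]
      exact h4 v
  · intro v
    beta_reduce
    by_cases hv : v ∈ Bd
    · rw [if_pos hv, hyin v hv]
      simp only [smul_dotProduct, smul_eq_mul]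
      rw [← Finset.mul_sum]
      refine mul_le_mul_of_nonneg_left ?_ (ind_nonneg o v)
      have h7 : ∀ w, z ⬝ᵥ y w ≤ (if w ∈ Bd then 1 else 0) + p := by
        intro w
        by_cases hw : w ∈ Bd
        · rw [if_pos hw, hyin w hw, dotProduct_smul, h1, smul_eq_mul, mul_one]
          linarith [ind_le o w]
        · rw [if_neg hw, hyout w hw, hzx, zero_add]
      refine (Finset.sum_le_sum fun w _ => h7 w).trans ?_
      rw [Finset.sum_add_distrib, Finset.sum_ite_mem, Finset.univ_inter, Finset.sum_const,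
        Finset.sum_const, card_univ, nsmul_eq_mul, nsmul_eq_mul, mul_one]
      exact hS2
    · rw [if_neg hv, hyout v hv]
      have h7 : ∀ w, x v ⬝ᵥ y w ≤ (if w ∈ Bd then p else 0) + x v ⬝ᵥ x w := by
        intro w
        by_cases hw : w ∈ Bd
        · rw [if_pos hw, hyin w hw, dotProduct_smul, hxz, smul_eq_mul]
          have h8 := hxx v w
          have h9 : ind o w * p ≤ 1 * p := mul_le_mul_of_nonneg_right (ind_le o w) hp0
          linarith
        · rw [if_neg hw, hyout w hw, zero_add]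
      refine (Finset.sum_le_sum fun w _ => h7 w).trans ?_
      rw [Finset.sum_add_distrib, Finset.sum_ite_mem, Finset.univ_inter, Finset.sum_const,
        nsmul_eq_mul]
      have := h5 v
      linarith
  · have hzy : ∀ w, 0 ≤ z ⬝ᵥ y w := by
      intro w
      by_cases hw : w ∈ Bd
      · rw [hyin w hw, dotProduct_smul, h1, smul_eq_mul, mul_one]
        exact ind_nonneg o w
      · rw [hyout w hw, hzx]
        exact hp0
    have hold : ∀ v w, 0 ≤ x v ⬝ᵥ (z - x w) := by
      intro v w
      have h7 := h3 (some (some v)) none (some (some w))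
      have h8 : (pts z x (some (some v)) - pts z x none) = x v := by
        show x v - 0 = x v
        rw [sub_zero]
      have h9 : (pts z x (some (some v)) - pts z x (some (some w))) = x v - x w := rfl
      rw [h8, h9, dotProduct_sub, h2 v, dotProduct_comm z (x v)] at h7
      rw [dotProduct_sub]
      exact h7
    have h7 : ∀ v w, y v ⬝ᵥ (z - y w) ≤ x v ⬝ᵥ (z - x w) + (if v ∈ Bd then 1 else 0) +
        (if w ∈ Bd then 1 else 0) := by
      intro v w
      have h8 := hold v w
      by_cases hv : v ∈ Bd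
      · rw [if_pos hv, hyin v hv, smul_dotProduct, dotProduct_sub, h1, smul_eq_mul]
        have h9 := hzy w
        have h10 := ind_nonneg o v
        have h11 := ind_le o v
        have h12 : ind o v * (1 - z ⬝ᵥ y w) ≤ 1 := by nlinarith
        have h13 : (0 : ℝ) ≤ if w ∈ Bd then 1 else 0 := by split_ifs <;> norm_num
        linarith
      · rw [if_neg hv, hyout v hv]
        by_cases hw : w ∈ Bd
        · rw [if_pos hw, hyin w hw, dotProduct_sub, dotProduct_smul, hxz, smul_eq_mul]
          have h10 := ind_nonneg o w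
          have h12 : 0 ≤ ind o w * p := mul_nonneg h10 hp0
          linarith
        · rw [if_neg hw, hyout w hw]
          linarith
    have h8 : ∑ v, ∑ w, wt v w * (y v ⬝ᵥ (z - y w)) ≤
        ∑ v, ∑ w, (wt v w * (x v ⬝ᵥ (z - x w)) + wt v w * (if v ∈ Bd then 1 else 0) +
          wt v w * (if w ∈ Bd then 1 else 0)) := by
      refine Finset.sum_le_sum fun v _ => Finset.sum_le_sum fun w _ => ?_
      rw [← mul_add, ← mul_add]
      exact mul_le_mul_of_nonneg_left (h7 v w) (hwt v w)
    refine h8.trans ?_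
    simp only [Finset.sum_add_distrib]
    have h9 : ∑ v, ∑ w, wt v w * (if v ∈ Bd then (1 : ℝ) else 0) ≤ Bd.card := by
      have h10 : ∀ v, ∑ w, wt v w * (if v ∈ Bd then (1 : ℝ) else 0) ≤
          if v ∈ Bd then 1 else 0 := by
        intro v
        rw [← Finset.sum_mul]
        exact mul_le_of_le_one_left (by split_ifs <;> norm_num) (hrow v)
      refine (Finset.sum_le_sum fun v _ => h10 v).trans (le_of_eq ?_)
      rw [Finset.sum_ite_mem, Finset.univ_inter, Finset.sum_const, nsmul_eq_mul, mul_one]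
    have h11 : ∑ v, ∑ w, wt v w * (if w ∈ Bd then (1 : ℝ) else 0) ≤ Bd.card := by
      rw [Finset.sum_comm]
      have h10 : ∀ w, ∑ v, wt v w * (if w ∈ Bd then (1 : ℝ) else 0) ≤
          if w ∈ Bd then 1 else 0 := by
        intro w
        rw [← Finset.sum_mul]
        exact mul_le_of_le_one_left (by split_ifs <;> norm_num) (hcol w)
      refine (Finset.sum_le_sum fun v _ => h10 v).trans (le_of_eq ?_)
      rw [Finset.sum_ite_mem, Finset.univ_inter, Finset.sum_const, nsmul_eq_mul, mul_one]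
    linarith

/-- the weights of a product distribution on sets -/
noncomputable def pw (t : V → ℝ) (o : V → Bool) : ℝ := ∏ v, if o v then t v else 1 - t v

theorem pw_nonneg {t : V → ℝ} (h0 : ∀ v, 0 ≤ t v) (h1 : ∀ v, t v ≤ 1) (o : V → Bool) :
    0 ≤ pw t o := by
  unfold pw
  refine Finset.prod_nonneg fun v _ => ?_
  split_ifs
  · exact h0 v
  · linarith [h1 v]

theorem pw_set (t : V → ℝ) (T : Finset V) :
    ∑ o, pw t o * ∏ v ∈ T, ind o v = ∏ v ∈ T, t v := by
  have h1 : ∀ o : V → Bool, pw t o * ∏ v ∈ T, ind o v =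
      ∏ v, (if o v then t v else 1 - t v) * (if v ∈ T then (if o v then 1 else 0) else 1) := by
    intro o
    rw [Finset.prod_mul_distrib, Finset.prod_ite_mem, Finset.univ_inter]
    rfl
  simp only [h1]
  rw [Pool.Agent.H562R2.sum_prod_cube (fun v b => (if b then t v else 1 - t v) *
    (if v ∈ T then (if b then 1 else 0) else 1))]
  rw [← Finset.univ_inter T, ← Finset.prod_ite_mem]
  refine Finset.prod_congr rfl fun v _ => ?_
  by_cases hv : v ∈ T
  · simp [hv]
  · simp [hv]

theorem pw_sum (t : V → ℝ) : ∑ o, pw t o = 1 := by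
  have := pw_set t ∅
  simpa using this

theorem pw_one (t : V → ℝ) (v : V) : ∑ o, pw t o * ind o v = t v := by
  have := pw_set t {v}
  simpa using this

theorem pw_size (t : V → ℝ) (h0 : ∀ v, 0 ≤ t v) (v : V) :
    ∑ o, pw t o * (ind o v * ∑ w, ind o w) ≤ t v * (1 + ∑ w, t w) := by
  have h2 : ∀ w, ∑ o, pw t o * (ind o v * ind o w) ≤ (if w = v then t v else 0) + t v * t w := by
    intro w
    by_cases hw : w = v
    · subst hw
      rw [if_pos rfl]
      simp only [ind_sq]
      rw [pw_one]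
      have := mul_nonneg (h0 w) (h0 w)
      linarith
    · rw [if_neg hw, zero_add]
      have h3 := pw_set t {v, w}
      rw [Finset.prod_pair (Ne.symm hw)] at h3
      rw [← h3]
      refine le_of_eq (Finset.sum_congr rfl fun o _ => ?_)
      rw [Finset.prod_pair (Ne.symm hw)]
  have h3 : ∑ o, pw t o * (ind o v * ∑ w, ind o w) = ∑ w, ∑ o, pw t o * (ind o v * ind o w) := by
    rw [Finset.sum_comm]
    refine Finset.sum_congr rfl fun o _ => ?_
    rw [Finset.mul_sum, Finset.mul_sum]
  rw [h3]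
  refine (Finset.sum_le_sum fun w _ => h2 w).trans (le_of_eq ?_)
  rw [Finset.sum_add_distrib, ← Finset.mul_sum, Finset.sum_ite_eq' univ v (fun _ => t v),
    if_pos (mem_univ v)]
  ring

/-- Marginals close to `p` outside `Bd`. -/
theorem sol_near (wt : V → V → ℝ) (hwt : ∀ v w, 0 ≤ wt v w) (hrow : ∀ v, ∑ w, wt v w ≤ 1)
    (hcol : ∀ w, ∑ v, wt v w ≤ 1) (p σ0 β0 S s : ℝ) (hp0 : 0 ≤ p) (hp1 : p ≤ 1)
    (h : Sol wt (fun _ => p) (fun _ => σ0) β0) (Bd : Finset V)
    (hS1 : σ0 + Bd.card * p ≤ p * S) (hS2 : Bd.card + (Fintype.card V) * p ≤ S)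
    (μ : V → ℝ) (hμ0 : ∀ v, 0 ≤ μ v) (hμ1 : ∀ v, μ v ≤ 1) (τ : ℝ) (hτ : 0 < τ)
    (hτ2 : 3 * τ * p ≤ τ) (hτ1 : 2 * τ ≤ 1)
    (hlow : ∀ v ∉ Bd, (1 - τ) * p ≤ μ v) (hup : ∀ v ∉ Bd, μ v ≤ (1 + 2 * τ) * p)
    (hs : S + 6 * τ * (1 + (Bd.card + 3 * p * Fintype.card V)) ≤ s) (hS0 : 0 ≤ S) :
    Sol wt μ (fun v => s * μ v)
      (β0 + 3 * Bd.card + 3 * τ * p * Fintype.card V) := by
  have hτ1' : τ ≤ 1 := by linarith
  obtain ⟨t, ht⟩ : ∃ t : V → ℝ, t = fun v => if v ∈ Bd then μ v else (μ v - (1 - τ) * p) / τ :=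
    ⟨_, rfl⟩
  have ht0 : ∀ v, 0 ≤ t v := by
    intro v
    rw [ht]
    beta_reduce
    split_ifs with hv
    · exact hμ0 v
    · exact div_nonneg (by linarith [hlow v hv]) hτ.le
  have htout : ∀ v ∉ Bd, t v ≤ 3 * p := by
    intro v hv
    rw [ht]
    beta_reduce
    rw [if_neg hv, div_le_iff₀ hτ]
    linarith [hup v hv]
  have h3p : 3 * p ≤ 1 := by
    have h1 : τ * (3 * p) ≤ τ * 1 := by linarith
    exact le_of_mul_le_mul_left h1 hτ
  have ht1 : ∀ v, t v ≤ 1 := by
    intro v
    by_cases hv : v ∈ Bd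
    · rw [ht]
      beta_reduce
      rw [if_pos hv]
      exact hμ1 v
    · exact (htout v hv).trans h3p
  have hT : ∑ v, t v ≤ Bd.card + 3 * p * Fintype.card V := by
    have h1 : ∀ v, t v ≤ (if v ∈ Bd then 1 else 0) + 3 * p := by
      intro v
      by_cases hv : v ∈ Bd
      · rw [if_pos hv]
        linarith [ht1 v]
      · rw [if_neg hv, zero_add]
        exact htout v hv
    refine (Finset.sum_le_sum fun v _ => h1 v).trans (le_of_eq ?_)
    rw [Finset.sum_add_distrib, Finset.sum_ite_mem, Finset.univ_inter, Finset.sum_const,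
      Finset.sum_const, card_univ, nsmul_eq_mul, nsmul_eq_mul]
    ring
  have hmix := sol_mix wt (J := (V → Bool) × Bool)
    (fun j => pw t j.1 * (if j.2 then τ else 1 - τ))
    (fun j => mul_nonneg (pw_nonneg ht0 ht1 j.1) (by split_ifs <;> linarith))
    (by
      rw [Fintype.sum_prod_type]
      have h1 : ∀ o : V → Bool, ∑ b : Bool, pw t o * (if b then τ else 1 - τ) = pw t o := by
        intro o
        rw [Fintype.sum_bool, if_pos rfl, if_neg (by decide)]
        ring
      simp only [h1]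
      exact pw_sum t)
    (fun j => if j.2 then ind j.1 else fun v => if v ∈ Bd then ind j.1 v else p)
    (fun j => if j.2 then (fun v => ind j.1 v * ∑ w, ind j.1 w) else
      fun v => (if v ∈ Bd then ind j.1 v else p) * S)
    (fun j => if j.2 then ∑ w, ind j.1 w else β0 + 2 * Bd.card)
    (by
      rintro ⟨o, b⟩
      cases b
      · exact sol_fix wt hwt hrow hcol p σ0 β0 S hp0 hp1 h Bd hS1 hS2 o
      · exact sol_int wt hwt hrow o)
  obtain ⟨D, iD, z, x, h1, h2, h3, h4, h5, h6⟩ := hmix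
  have hsplit : ∀ f : (V → Bool) × Bool → ℝ,
      ∑ j : (V → Bool) × Bool, (pw t j.1 * (if j.2 then τ else 1 - τ)) * f j =
      τ * ∑ o, pw t o * f (o, true) + (1 - τ) * ∑ o, pw t o * f (o, false) := by
    intro f
    rw [Fintype.sum_prod_type, Finset.mul_sum, Finset.mul_sum, ← Finset.sum_add_distrib]
    refine Finset.sum_congr rfl fun o _ => ?_
    rw [Fintype.sum_bool]
    simp only [if_true, Bool.false_eq_true, if_false]
    ring
  refine ⟨D, iD, z, x, h1, h2, h3, fun v => ?_, fun v => ?_, ?_⟩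
  · rw [← h4 v]
    beta_reduce
    rw [hsplit (fun j => (if j.2 then ind j.1 else
      fun v => if v ∈ Bd then ind j.1 v else p) v)]
    simp only [if_true, Bool.false_eq_true, if_false]
    rw [pw_one]
    by_cases hv : v ∈ Bd
    · simp only [if_pos hv]
      rw [pw_one, ht]
      beta_reduce
      rw [if_pos hv]
      ring
    · simp only [if_neg hv]
      rw [← Finset.sum_mul, pw_sum, ht]
      beta_reduce
      rw [if_neg hv]
      field_simp
      ring
  · refine (h5 v).trans ?_
    beta_reduce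
    rw [hsplit (fun j => (if j.2 then (fun v => ind j.1 v * ∑ w, ind j.1 w) else
      fun v => (if v ∈ Bd then ind j.1 v else p) * S) v)]
    simp only [if_true, Bool.false_eq_true, if_false]
    have h7 := pw_size t ht0 v
    obtain ⟨B, hB⟩ : ∃ B : ℝ, B = 1 + (Bd.card + 3 * p * Fintype.card V) := ⟨_, rfl⟩
    rw [← hB] at hs
    have hB0 : 0 ≤ B := by
      have e1 : (0 : ℝ) ≤ Bd.card := Nat.cast_nonneg _
      have e2 : (0 : ℝ) ≤ 3 * p * Fintype.card V :=
        mul_nonneg (by linarith) (Nat.cast_nonneg _)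
      linarith
    have h8 : ∑ o, pw t o * (ind o v * ∑ w, ind o w) ≤ t v * B := by
      refine h7.trans (mul_le_mul_of_nonneg_left ?_ (ht0 v))
      rw [hB]
      linarith
    by_cases hv : v ∈ Bd
    · simp only [if_pos hv]
      have h9 : ∑ o, pw t o * (ind o v * S) = t v * S := by
        rw [← pw_one t v, Finset.sum_mul]
        exact Finset.sum_congr rfl fun o _ => by ring
      rw [h9]
      have h10 : t v = μ v := by
        rw [ht]
        beta_reduce
        rw [if_pos hv]
      rw [h10] at h8 ⊢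
      have h11 := hμ0 v
      have h12 : μ v * (S + 6 * τ * B) ≤ μ v * s := mul_le_mul_of_nonneg_left hs h11
      have h13 : τ * ∑ o, pw t o * (ind o v * ∑ w, ind o w) ≤ τ * (μ v * B) :=
        mul_le_mul_of_nonneg_left h8 hτ.le
      have h14 : 0 ≤ τ * (μ v * S) := mul_nonneg hτ.le (mul_nonneg h11 hS0)
      have h15 : 0 ≤ τ * (μ v * B) := mul_nonneg hτ.le (mul_nonneg h11 hB0)
      linarith
    · simp only [if_neg hv]
      have h9 : ∑ o, pw t o * (p * S) = p * S := by
        rw [← Finset.sum_mul, pw_sum, one_mul]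
      rw [h9]
      have h10 : τ * t v = μ v - (1 - τ) * p := by
        rw [ht]
        beta_reduce
        rw [if_neg hv]
        field_simp
      have h13 : τ * ∑ o, pw t o * (ind o v * ∑ w, ind o w) ≤ τ * (t v * B) :=
        mul_le_mul_of_nonneg_left h8 hτ.le
      have h14 : τ * (t v * B) ≤ 3 * τ * p * B := by
        have h15 := mul_le_mul_of_nonneg_right (htout v hv) hB0
        have h16 := mul_le_mul_of_nonneg_left h15 hτ.le
        linarith
      have h15 : (1 - τ) * (p * s) ≤ μ v * s := by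
        have hs0 : 0 ≤ s := by
          have : 0 ≤ 6 * τ * B := by positivity
          linarith
        calc (1 - τ) * (p * s) = ((1 - τ) * p) * s := by ring
          _ ≤ μ v * s := mul_le_mul_of_nonneg_right (hlow v hv) hs0
      have h16 : (1 - τ) * (p * (S + 6 * τ * B)) ≤ (1 - τ) * (p * s) :=
        mul_le_mul_of_nonneg_left (mul_le_mul_of_nonneg_left hs hp0) (by linarith)
      have h17 : 3 * τ * p * B ≤ (1 - τ) * (p * (6 * τ * B)) := by
        have h18 : 0 ≤ τ * p * B := by positivity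
        have h19 : 0 ≤ (1 - 2 * τ) * (τ * p * B) := mul_nonneg (by linarith) h18
        nlinarith
      have h18 : (1 - τ) * (p * (S + 6 * τ * B)) = (1 - τ) * (p * S) +
          (1 - τ) * (p * (6 * τ * B)) := by ring
      linarith
  · refine h6.trans ?_
    rw [hsplit (fun j => if j.2 then ∑ w, ind j.1 w else β0 + 2 * Bd.card)]
    simp only [if_true, Bool.false_eq_true, if_false]
    have h7 : ∑ o, pw t o * ∑ w, ind o w = ∑ w, t w := by
      simp only [Finset.mul_sum]
      rw [Finset.sum_comm]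
      exact Finset.sum_congr rfl fun w _ => pw_one t w
    have h8 : ∑ o, pw t o * (β0 + 2 * (Bd.card : ℝ)) = β0 + 2 * Bd.card := by
      rw [← Finset.sum_mul, pw_sum, one_mul]
    rw [h7, h8]
    have hb0 : 0 ≤ β0 + 2 * Bd.card := by
      have h9 := sol_fix wt hwt hrow hcol p σ0 β0 S hp0 hp1 h Bd hS1 hS2 fun _ => false
      obtain ⟨D', iD', z', x', g1, g2, g3, g4, g5, g6⟩ := h9
      refine le_trans ?_ g6
      refine Finset.sum_nonneg fun v _ => Finset.sum_nonneg fun w _ => mul_nonneg (hwt v w) ?_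
      have g7 := g3 (some (some v)) none (some (some w))
      have g8 : (pts z' x' (some (some v)) - pts z' x' none) = x' v := by
        show x' v - 0 = x' v
        rw [sub_zero]
      have g9 : (pts z' x' (some (some v)) - pts z' x' (some (some w))) = x' v - x' w := rfl
      rw [g8, g9, dotProduct_sub, g2 v, dotProduct_comm z' (x' v)] at g7
      rw [dotProduct_sub]
      exact g7
    have h9 : τ * ∑ w, t w ≤ τ * (Bd.card + 3 * p * Fintype.card V) :=
      mul_le_mul_of_nonneg_left hT hτ.le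
    have h10 : τ * (Bd.card : ℝ) ≤ 1 * Bd.card :=
      mul_le_mul_of_nonneg_right hτ1' (Nat.cast_nonneg _)
    have h11 : (1 - τ) * (β0 + 2 * (Bd.card : ℝ)) ≤ 1 * (β0 + 2 * Bd.card) :=
      mul_le_mul_of_nonneg_right (by linarith) hb0
    linarith

end

end Pool.Agent.W888.SX
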